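import Pool.Agent.SyndeticSub.Defs

/-!
# Left-invariant syndetic submeasures on large classes of (uncountable) groups
-/

namespace Pool.Agent.SyndeticSub

universe u v

/-! ## Permanence -/

lemma of_quotient {G : Type u} [Group G] {Q : Type v} [Group Q] [Infinite Q] (π : G →* Q)
    (hπ : Function.Surjective π) (h : HasSyndeticSubmeasure Q) : HasSyndeticSubmeasure G := by
  classical
  obtain ⟨μ, h01, h0, h1, hmono, hsub, hinv, hsyn⟩ := h
  have hG : Infinite G := Infinite.of_surjective π hπ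
  refine ⟨fun A => μ (π '' A), fun A => h01 _, by simpa using h0, ?_, ?_, ?_, ?_, ?_⟩
  · show μ (π '' Set.univ) = 1
    rw [Set.image_univ, Set.range_eq_univ.2 hπ, h1]
  · intro A B hAB
    exact hmono _ _ (Set.image_mono hAB)
  · intro A B
    show μ (π '' (A ∪ B)) ≤ _
    rw [Set.image_union]
    exact hsub _ _
  · intro x A
    show μ (π '' ((fun y => x * y) '' A)) = μ (π '' A)
    rw [← hinv (π x) (π '' A)]
    congr 1
    ext q
    constructor
    · rintro ⟨_, ⟨a, ha, rfl⟩, rfl⟩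
      exact ⟨π a, ⟨a, ha, rfl⟩, by simp⟩
    · rintro ⟨_, ⟨a, ha, rfl⟩, rfl⟩
      exact ⟨x * a, ⟨a, ha, rfl⟩, by simp⟩
  · intro A hA ε hε
    have hε' : 1 / (Nat.card Q : ℝ) < ε := by
      rw [Nat.card_eq_zero_of_infinite] at hε ⊢
      exact hε
    obtain ⟨B, hB, hBε, F, hF⟩ := hsyn _ hA ε hε'
    refine ⟨π ⁻¹' B, ?_, ?_, ?_⟩
    · intro g hg hgA
      exact hB hg ⟨g, hgA, rfl⟩
    · show μ (π '' (π ⁻¹' B)) < ε
      rw [Set.image_preimage_eq _ hπ]
      exact hBε
    · refine ⟨F.image (Function.surjInv hπ), ?_⟩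
      intro g
      obtain ⟨f, hf, b, hb, hg⟩ := hF (π g)
      refine ⟨Function.surjInv hπ f, Finset.mem_image_of_mem _ hf,
        (Function.surjInv hπ f)⁻¹ * g, ?_, by group⟩
      show π _ ∈ B
      rw [map_mul, map_inv, Function.surjInv_eq hπ, hg]
      simpa using hb

/-- the trace of `A` on the left coset `q` -/
def tr {G : Type u} [Group G] (H : Subgroup G) (A : Set G) (q : G ⧸ H) : Set H :=
  {h | q.out * (h : G) ∈ A}

lemma of_finiteIndex {G : Type u} [Group G] (H : Subgroup G) [H.FiniteIndex] [Infinite H]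
    (h : HasSyndeticSubmeasure H) : HasSyndeticSubmeasure G := by
  classical
  obtain ⟨μ, h01, h0, h1, hmono, hsub, hinv, hsyn⟩ := h
  have hG : Infinite G := Infinite.of_injective (fun x : H => (x : G)) Subtype.val_injective
  have : Fintype (G ⧸ H) := Fintype.ofFinite _
  set m : ℝ := (Fintype.card (G ⧸ H) : ℝ) with hm
  have hm0 : 1 ≤ m := by
    rw [hm]
    exact_mod_cast Fintype.card_pos
  have hm0' : 0 < m := by linarith
  have hsum1 : ∀ A : Set G, ∑ q : G ⧸ H, μ (tr H A q) ≤ m := by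
    intro A
    calc ∑ q : G ⧸ H, μ (tr H A q) ≤ ∑ q : G ⧸ H, (1 : ℝ) :=
          Finset.sum_le_sum fun q _ => (h01 _).2
      _ = m := by simp [hm]
  refine ⟨fun A => (∑ q : G ⧸ H, μ (tr H A q)) / m, ?_, ?_, ?_, ?_, ?_, ?_, ?_⟩
  · intro A
    refine ⟨div_nonneg (Finset.sum_nonneg fun q _ => (h01 _).1) hm0'.le, ?_⟩
    exact (div_le_one hm0').2 (hsum1 A)
  · have : ∀ q : G ⧸ H, tr H ∅ q = ∅ := by
      intro q; ext x; simp [tr]
    simp [this, h0]
  · have : ∀ q : G ⧸ H, tr H Set.univ q = Set.univ := by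
      intro q; ext x; simp [tr]
    simp only [this, h1]
    rw [Finset.sum_const, Finset.card_univ, nsmul_eq_mul, mul_one]
    exact div_self hm0'.ne'
  · intro A B hAB
    refine div_le_div_of_nonneg_right ?_ hm0'.le
    exact Finset.sum_le_sum fun q _ => hmono _ _ fun x hx => hAB hx
  · intro A B
    show (∑ q : G ⧸ H, μ (tr H (A ∪ B) q)) / m
      ≤ (∑ q : G ⧸ H, μ (tr H A q)) / m + (∑ q : G ⧸ H, μ (tr H B q)) / m
    rw [← add_div, ← Finset.sum_add_distrib]
    refine div_le_div_of_nonneg_right ?_ hm0'.le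
    refine Finset.sum_le_sum fun q _ => ?_
    have : tr H (A ∪ B) q = tr H A q ∪ tr H B q := by
      ext x; simp [tr]
    rw [this]
    exact hsub _ _
  · intro x A
    show (∑ q : G ⧸ H, μ (tr H ((fun y => x * y) '' A) q)) / m
      = (∑ q : G ⧸ H, μ (tr H A q)) / m
    congr 1
    have key : ∀ q : G ⧸ H, μ (tr H ((fun y => x * y) '' A) q) = μ (tr H A (x⁻¹ • q)) := by
      intro q
      have hk : ((x⁻¹ • q).out)⁻¹ * (x⁻¹ * q.out) ∈ H := by
        rw [← QuotientGroup.eq, QuotientGroup.out_eq']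
        conv_lhs => rw [← QuotientGroup.out_eq' q]
        rfl
      rw [← hinv ⟨_, hk⟩]
      congr 1
      ext y
      constructor
      · rintro ⟨z, hz, rfl⟩
        obtain ⟨a, ha, haz⟩ := hz
        show (x⁻¹ • q).out * _ ∈ A
        have : (x⁻¹ • q).out * ((((x⁻¹ • q).out)⁻¹ * (x⁻¹ * q.out)) * (z : G)) = a := by
          have : q.out * (z : G) = x * a := haz.symm
          calc (x⁻¹ • q).out * ((((x⁻¹ • q).out)⁻¹ * (x⁻¹ * q.out)) * (z : G))
              = x⁻¹ * (q.out * (z : G)) := by group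
            _ = a := by rw [this]; group
        simp only [Subgroup.coe_mul]
        rw [this]
        exact ha
      · intro hy
        refine ⟨(⟨_, hk⟩ : H)⁻¹ * y, ?_, by simp⟩
        refine ⟨(x⁻¹ • q).out * (y : G), hy, ?_⟩
        simp only [Subgroup.coe_mul, Subgroup.coe_inv]
        group
    rw [Finset.sum_congr rfl fun q _ => key q]
    exact Equiv.sum_comp (MulAction.toPerm x⁻¹ : Equiv.Perm (G ⧸ H)) (fun q => μ (tr H A q))
  · intro A hA ε hε
    have hA' : (∑ q : G ⧸ H, μ (tr H A q)) < m := (div_lt_one hm0').1 hA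
    have : ∃ q : G ⧸ H, μ (tr H A q) < 1 := by
      by_contra hcon
      push Not at hcon
      have : m ≤ ∑ q : G ⧸ H, μ (tr H A q) := by
        calc m = ∑ q : G ⧸ H, (1 : ℝ) := by simp [hm]
          _ ≤ _ := Finset.sum_le_sum fun q _ => hcon q
      linarith
    obtain ⟨q, hq⟩ := this
    have hε' : 1 / (Nat.card H : ℝ) < ε := by
      rw [Nat.card_eq_zero_of_infinite] at hε ⊢
      exact hε
    obtain ⟨B, hB, hBε, F, hF⟩ := hsyn _ hq ε hε'
    refine ⟨(fun h : H => q.out * (h : G)) '' B, ?_, ?_, ?_⟩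
    · rintro _ ⟨b, hb, rfl⟩ hbA
      exact hB hb hbA
    · show (∑ q' : G ⧸ H, μ (tr H ((fun h : H => q.out * (h : G)) '' B) q')) / m < ε
      have hval : ∀ q' : G ⧸ H, μ (tr H ((fun h : H => q.out * (h : G)) '' B) q')
          = if q' = q then μ B else 0 := by
        intro q'
        by_cases hqq : q' = q
        · subst hqq
          rw [if_pos rfl]
          congr 1
          ext y
          constructor
          · rintro ⟨b, hb, hby⟩
            have : (b : G) = (y : G) := mul_left_cancel hby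
            have : b = y := Subtype.ext this
            rw [← this]; exact hb
          · intro hy
            exact ⟨y, hy, rfl⟩
        · rw [if_neg hqq, ← h0]
          congr 1
          ext y
          constructor
          · rintro ⟨b, hb, hby⟩
            exfalso
            apply hqq
            have h1 : ((q'.out * (y : G) : G) : G ⧸ H) = q' := by
              conv_rhs => rw [← QuotientGroup.out_eq' q']
              rw [QuotientGroup.eq]
              simpa using y.2
            have h2 : ((q.out * (b : G) : G) : G ⧸ H) = q := by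
              conv_rhs => rw [← QuotientGroup.out_eq' q]
              rw [QuotientGroup.eq]
              simpa using b.2
            rw [← h1, ← h2]
            exact congrArg _ hby.symm
          · intro hy
            exact hy.elim
      rw [Finset.sum_congr rfl fun q' _ => hval q']
      rw [Finset.sum_ite_eq' Finset.univ q]
      simp only [Finset.mem_univ, if_true]
      have := (h01 B).1
      calc μ B / m ≤ μ B / 1 := div_le_div_of_nonneg_left this one_pos hm0
        _ = μ B := by simp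
        _ < ε := hBε
    · refine ⟨(Finset.univ ×ˢ F).image
        (fun p : (G ⧸ H) × H => p.1.out * (p.2 : G) * (q.out)⁻¹), ?_⟩
      intro g
      have hg : ((g : G ⧸ H).out)⁻¹ * g ∈ H := by
        rw [← QuotientGroup.eq, QuotientGroup.out_eq']
      obtain ⟨f, hf, b, hb, hfb⟩ := hF ⟨_, hg⟩
      refine ⟨(g : G ⧸ H).out * (f : G) * (q.out)⁻¹, ?_, q.out * (b : G), ⟨b, hb, rfl⟩, ?_⟩
      · exact Finset.mem_image.2 ⟨((g : G ⧸ H), f), by simp [hf], rfl⟩
      · have : ((g : G ⧸ H).out)⁻¹ * g = (f : G) * (b : G) := congrArg Subtype.val hfb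
        calc g = (g : G ⧸ H).out * (((g : G ⧸ H).out)⁻¹ * g) := by group
          _ = (g : G ⧸ H).out * ((f : G) * (b : G)) := by rw [this]
          _ = _ := by group


/-! ## Infinite amenable normal subgroups -/

/-- the means on `G` that are left-invariant under the elements of `N` -/
def Inv {G : Type u} [Group G] (N : Set G) : Set (Set G → ℝ) :=
  {z | (∀ A, 0 ≤ z A) ∧ z Set.univ = 1 ∧ (∀ A B, Disjoint A B → z (A ∪ B) = z A + z B) ∧
    ∀ n ∈ N, ∀ A : Set G, z ((fun x => n * x) '' A) = z A}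

section

variable {G : Type u} [Group G] {N : Set G} {z : Set G → ℝ}

lemma Inv.empty (hz : z ∈ Inv N) : z ∅ = 0 := by
  have := hz.2.2.1 ∅ ∅ (Set.disjoint_empty _)
  rw [Set.union_empty] at this
  linarith

lemma Inv.mono (hz : z ∈ Inv N) {A B : Set G} (h : A ⊆ B) : z A ≤ z B := by
  have := hz.2.2.1 A (B \ A) Set.disjoint_sdiff_right
  rw [Set.union_sdiff_cancel h] at this
  linarith [hz.1 (B \ A)]

lemma Inv.le_one (hz : z ∈ Inv N) (A : Set G) : z A ≤ 1 := by
  rw [← hz.2.1]
  exact Inv.mono hz (Set.subset_univ _)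

lemma Inv.union_le (hz : z ∈ Inv N) (A B : Set G) : z (A ∪ B) ≤ z A + z B := by
  have := hz.2.2.1 A (B \ A) Set.disjoint_sdiff_right
  rw [Set.union_sdiff_self] at this
  linarith [Inv.mono hz (Set.sdiff_subset : B \ A ⊆ B)]

lemma Inv.biUnion (hz : z ∈ Inv N) {ι : Type*} (s : Finset ι) (f : ι → Set G)
    (hf : ∀ i ∈ s, ∀ j ∈ s, i ≠ j → Disjoint (f i) (f j)) :
    z (⋃ i ∈ s, f i) = ∑ i ∈ s, z (f i) := by
  classical
  induction s using Finset.induction_on with
  | empty => simpa using Inv.empty hz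
  | insert a s ha ih =>
    rw [Finset.set_biUnion_insert, Finset.sum_insert ha, hz.2.2.1, ih]
    · intro i hi j hj hij
      exact hf i (Finset.mem_insert_of_mem hi) j (Finset.mem_insert_of_mem hj) hij
    · rw [Set.disjoint_iUnion₂_right]
      intro i hi
      exact hf a (Finset.mem_insert_self _ _) i (Finset.mem_insert_of_mem hi)
        (fun h => ha (h ▸ hi))

end

lemma exists_inv {G : Type u} [Group G] (N : Subgroup G) (hN : IsAmenable N) (A : Set G)
    (hA : ∀ F : Finset N, ∃ x : G, ∀ f ∈ F, (f : G) * x ∈ A) : ∃ z ∈ Inv (N : Set G), z A = 1 := by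
  classical
  obtain ⟨m, mnn, muniv, madd, minv⟩ := hN
  have hp : ∃ p : Ultrafilter G, (Set.range fun n : N => {x : G | (n : G) * x ∈ A}) ⊆ p.sets := by
    apply Ultrafilter.exists_ultrafilter_of_finite_inter_nonempty
    intro T hT
    have hT' : ∀ t : Set G, ∃ n : N, t ∈ T → {x : G | (n : G) * x ∈ A} = t := by
      intro t
      by_cases ht : t ∈ T
      · obtain ⟨n, hn⟩ := hT (Finset.mem_coe.2 ht)
        exact ⟨n, fun _ => hn⟩
      · exact ⟨1, fun h => (ht h).elim⟩
    choose n hn using hT'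
    obtain ⟨x, hx⟩ := hA (T.image n)
    refine ⟨x, ?_⟩
    intro t ht
    have h1 := hn t (Finset.mem_coe.1 ht)
    rw [← h1]
    exact hx (n t) (Finset.mem_image_of_mem _ (Finset.mem_coe.1 ht))
  obtain ⟨p, hp⟩ := hp
  refine ⟨fun S => m {n : N | {x : G | (n : G) * x ∈ S} ∈ p}, ⟨fun S => mnn _, ?_, ?_, ?_⟩, ?_⟩
  · show m {n : N | {x : G | (n : G) * x ∈ Set.univ} ∈ p} = 1
    have : {n : N | {x : G | (n : G) * x ∈ (Set.univ : Set G)} ∈ p} = Set.univ := by
      ext n
      simp only [Set.mem_univ, Set.mem_ofPred_eq, iff_true]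
      exact Filter.univ_mem
    rw [this, muniv]
  · intro S T hST
    show m {n : N | {x : G | (n : G) * x ∈ S ∪ T} ∈ p} = _
    have h1 : {n : N | {x : G | (n : G) * x ∈ S ∪ T} ∈ p}
        = {n : N | {x : G | (n : G) * x ∈ S} ∈ p} ∪ {n : N | {x : G | (n : G) * x ∈ T} ∈ p} := by
      ext n
      have : {x : G | (n : G) * x ∈ S ∪ T}
          = {x : G | (n : G) * x ∈ S} ∪ {x : G | (n : G) * x ∈ T} := by
        ext x; simp
      show {x : G | (n : G) * x ∈ S ∪ T} ∈ p ↔ _
      rw [this, Ultrafilter.union_mem_iff]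
      rfl
    rw [h1, madd]
    rw [Set.disjoint_left]
    intro n hn hn'
    have h2 : {x : G | (n : G) * x ∈ S} ∩ {x : G | (n : G) * x ∈ T} ∈ p :=
      Filter.inter_mem hn hn'
    have h3 : {x : G | (n : G) * x ∈ S} ∩ {x : G | (n : G) * x ∈ T} = ∅ := by
      ext x
      constructor
      · rintro ⟨h4, h5⟩
        exact (Set.disjoint_left.1 hST h4 h5).elim
      · intro h; exact h.elim
    rw [h3] at h2
    exact Ultrafilter.empty_notMem h2
  · intro n₀ hn₀ S
    show m {n : N | {x : G | (n : G) * x ∈ (fun y => n₀ * y) '' S} ∈ p}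
      = m {n : N | {x : G | (n : G) * x ∈ S} ∈ p}
    rw [← minv ⟨n₀, hn₀⟩ {n : N | {x : G | (n : G) * x ∈ S} ∈ p}]
    congr 1
    ext n
    constructor
    · intro hn
      refine ⟨(⟨n₀, hn₀⟩ : N)⁻¹ * n, ?_, by simp⟩
      refine Filter.mem_of_superset hn ?_
      rintro x ⟨y, hy, hyx⟩
      show _ ∈ S
      have h6 : (((⟨n₀, hn₀⟩ : N)⁻¹ * n : N) : G) * x = y := by
        have h7 : n₀ * y = (n : G) * x := hyx
        simp only [Subgroup.coe_mul, Subgroup.coe_inv]
        rw [mul_assoc, ← h7]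
        group
      rw [h6]; exact hy
    · rintro ⟨k, hk, rfl⟩
      refine Filter.mem_of_superset hk ?_
      intro x hx
      exact ⟨(k : G) * x, hx, by simp [mul_assoc]⟩
  · show m {n : N | {x : G | (n : G) * x ∈ A} ∈ p} = 1
    have : {n : N | {x : G | (n : G) * x ∈ A} ∈ p} = Set.univ := by
      ext n
      simp only [Set.mem_univ, iff_true]
      exact hp ⟨n, rfl⟩
    rw [this, muniv]

/-- the means invariant under some conjugate of `H` -/
def ConjInv {G : Type u} [Group G] (H : Subgroup G) : Set (Set G → ℝ) :=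
  {z | ∃ g : G, z ∈ Inv {n : G | g⁻¹ * n * g ∈ H}}

lemma of_uniformly_infinite {G : Type u} [Group G] [hG : Infinite G]
    (h : HasUniformlyInfiniteAmenable G) : HasSyndeticSubmeasure G := by
  classical
  obtain ⟨H, hH, hinf⟩ := h
  have hsub : Inv (H : Set G) ⊆ ConjInv H := by
    intro z hz
    exact ⟨1, by simpa using hz⟩
  have hne : ∀ A : Set G, ((fun z : Set G → ℝ => z A) '' ConjInv H).Nonempty := by
    intro A
    obtain ⟨z, hz, -⟩ := exists_inv H hH Set.univ (fun F => ⟨1, fun f hf => Set.mem_univ _⟩)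
    exact ⟨z A, z, hsub hz, rfl⟩
  have hbdd : ∀ A : Set G, BddAbove ((fun z : Set G → ℝ => z A) '' ConjInv H) := by
    intro A
    refine ⟨1, ?_⟩
    rintro _ ⟨z, ⟨g, hz⟩, rfl⟩
    exact Inv.le_one hz A
  have hle : ∀ (z : Set G → ℝ) (A : Set G), z ∈ ConjInv H →
      z A ≤ sSup ((fun z : Set G → ℝ => z A) '' ConjInv H) := by
    intro z A hz
    exact le_csSup (hbdd A) ⟨z, hz, rfl⟩
  refine ⟨fun A => sSup ((fun z : Set G → ℝ => z A) '' ConjInv H), ?_, ?_, ?_, ?_, ?_, ?_, ?_⟩
  · intro A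
    refine ⟨?_, ?_⟩
    · obtain ⟨_, z, hz, rfl⟩ := hne A
      obtain ⟨g, hz'⟩ := hz
      exact (hz'.1 A).trans (hle z A ⟨g, hz'⟩)
    · refine csSup_le (hne A) ?_
      rintro _ ⟨z, ⟨g, hz⟩, rfl⟩
      exact Inv.le_one hz A
  · apply le_antisymm
    · refine csSup_le (hne _) ?_
      rintro _ ⟨z, ⟨g, hz⟩, rfl⟩
      exact (Inv.empty hz).le
    · obtain ⟨_, z, hz, rfl⟩ := hne ∅
      obtain ⟨g, hz'⟩ := hz
      exact (hz'.1 ∅).trans (hle z ∅ ⟨g, hz'⟩)
  · apply le_antisymm
    · refine csSup_le (hne _) ?_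
      rintro _ ⟨z, ⟨g, hz⟩, rfl⟩
      exact hz.2.1.le
    · obtain ⟨_, z, hz, rfl⟩ := hne Set.univ
      obtain ⟨g, hz'⟩ := hz
      calc (1 : ℝ) = z Set.univ := hz'.2.1.symm
        _ ≤ _ := hle z _ ⟨g, hz'⟩
  · intro A B hAB
    refine csSup_le (hne _) ?_
    rintro _ ⟨z, ⟨g, hz⟩, rfl⟩
    exact (Inv.mono hz hAB).trans (hle z B ⟨g, hz⟩)
  · intro A B
    refine csSup_le (hne _) ?_
    rintro _ ⟨z, ⟨g, hz⟩, rfl⟩
    exact (Inv.union_le hz A B).trans (add_le_add (hle z A ⟨g, hz⟩) (hle z B ⟨g, hz⟩))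
  · have key : ∀ (x : G) (A : Set G),
        sSup ((fun z : Set G → ℝ => z ((fun y => x * y) '' A)) '' ConjInv H)
          ≤ sSup ((fun z : Set G → ℝ => z A) '' ConjInv H) := by
      intro x A
      refine csSup_le (hne _) ?_
      rintro _ ⟨z, ⟨g, hz⟩, rfl⟩
      have hz' : (fun B : Set G => z ((fun y => x * y) '' B)) ∈ ConjInv H := by
        refine ⟨x⁻¹ * g, fun B => hz.1 _, ?_, ?_, ?_⟩
        · show z ((fun y => x * y) '' Set.univ) = 1
          rw [Set.image_univ, (mul_left_surjective x).range_eq]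
          exact hz.2.1
        · intro B C hBC
          show z ((fun y => x * y) '' (B ∪ C)) = _
          rw [Set.image_union]
          exact hz.2.2.1 _ _ ((Set.disjoint_image_iff (mul_right_injective x)).2 hBC)
        · intro n hn B
          show z ((fun y => x * y) '' ((fun y => n * y) '' B)) = z ((fun y => x * y) '' B)
          have hn' : x * n * x⁻¹ ∈ {n : G | g⁻¹ * n * g ∈ H} := by
            show g⁻¹ * (x * n * x⁻¹) * g ∈ H
            have h1 : (x⁻¹ * g)⁻¹ * n * (x⁻¹ * g) ∈ H := hn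
            have h2 : (x⁻¹ * g)⁻¹ * n * (x⁻¹ * g) = g⁻¹ * (x * n * x⁻¹) * g := by group
            rwa [h2] at h1
          rw [← hz.2.2.2 (x * n * x⁻¹) hn' ((fun y => x * y) '' B)]
          congr 1
          rw [Set.image_image, Set.image_image]
          congr 1
          funext y
          group
      exact hle _ A hz'
    intro x A
    apply le_antisymm (key x A)
    have := key x⁻¹ ((fun y => x * y) '' A)
    have h2 : (fun y => x⁻¹ * y) '' ((fun y => x * y) '' A) = A := by
      rw [Set.image_image]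
      simp
    rw [h2] at this
    exact this
  · intro A hA ε hε
    have hεpos : 0 < ε := by
      rw [Nat.card_eq_zero_of_infinite] at hε
      simpa using hε
    -- `Aᶜ` is syndetic
    have hF : ∃ F : Finset H, ∀ x : G, ∃ f ∈ F, (f : G) * x ∉ A := by
      by_contra hcon
      push Not at hcon
      obtain ⟨z, hz, hzA⟩ := exists_inv H hH A hcon
      have := hle z A (hsub hz)
      rw [hzA] at this
      exact absurd hA (not_lt.2 this)
    obtain ⟨F, hF⟩ := hF
    obtain ⟨k, hk⟩ := exists_nat_gt (1 / ε)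
    have hkpos : (0 : ℝ) < k := lt_of_le_of_lt (by positivity) hk
    obtain ⟨D, hD⟩ := hinf k
    -- separated subsets of `Aᶜ`
    let Sep : Set (Set G) := {B | B ⊆ Aᶜ ∧ ∀ b ∈ B, ∀ b' ∈ B, ∀ d ∈ D, ∀ d' ∈ D,
      d * b = d' * b' → b = b'}
    obtain ⟨B, -, hB⟩ := zorn_subset_nonempty Sep (by
      intro c hc hchain hcne
      refine ⟨⋃₀ c, ⟨?_, ?_⟩, fun s hs => Set.subset_sUnion_of_mem hs⟩
      · exact Set.sUnion_subset fun s hs => (hc hs).1
      · rintro b ⟨s, hs, hbs⟩ b' ⟨s', hs', hbs'⟩ d hd d' hd' hdd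
        rcases hchain.total hs hs' with h | h
        · exact (hc hs').2 b (h hbs) b' hbs' d hd d' hd' hdd
        · exact (hc hs).2 b hbs b' (h hbs') d hd d' hd' hdd) ∅ (by
        refine ⟨Set.empty_subset _, ?_⟩
        intro b hb
        exact hb.elim)
    obtain ⟨⟨hBA, hBsep⟩, hBmax⟩ := hB
    refine ⟨B, hBA, ?_, ?_⟩
    · have hle' : sSup ((fun z : Set G → ℝ => z B) '' ConjInv H) ≤ 1 / k := by
        refine csSup_le (hne _) ?_
        rintro _ ⟨z, ⟨g, hz⟩, rfl⟩
        rw [le_div_iff₀ hkpos]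
        obtain ⟨D', hD'D, hD'k, hD'H⟩ := hD g
        have h1 : z (⋃ d ∈ D', (fun y : G => d * y) '' B) = ∑ d ∈ D', z B := by
          rw [Inv.biUnion hz]
          · exact Finset.sum_congr rfl fun d hd => hz.2.2.2 d (hD'H d hd) B
          · intro d hd d' hd' hdd
            rw [Set.disjoint_left]
            rintro _ ⟨b, hb, rfl⟩ ⟨b', hb', hbb⟩
            have h2 : d' * b' = d * b := hbb
            have h3 := hBsep b' hb' b hb d' (hD'D hd') d (hD'D hd) h2
            rw [h3] at h2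
            exact hdd (mul_right_cancel h2).symm
        rw [Finset.sum_const, hD'k, nsmul_eq_mul] at h1
        have h4 := Inv.le_one hz (⋃ d ∈ D', (fun y : G => d * y) '' B)
        rw [h1] at h4
        show z B * k ≤ 1
        linarith
      have : 1 / (k : ℝ) < ε := by
        rw [div_lt_iff₀ hkpos]
        rw [div_lt_iff₀ hεpos] at hk
        linarith
      exact lt_of_le_of_lt hle' this
    · -- maximality
      have hDne : D.Nonempty := by
        obtain ⟨D', hD'D, hD'k, -⟩ := hD 1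
        have : D'.Nonempty := by
          rw [← Finset.card_pos, hD'k]
          exact_mod_cast hkpos
        exact this.mono hD'D
      obtain ⟨d₀, hd₀⟩ := hDne
      have hcov : ∀ c : G, c ∉ A → ∃ d ∈ D, ∃ d' ∈ D, ∃ b ∈ B, c = d⁻¹ * d' * b := by
        intro c hc
        by_cases hcB : c ∈ B
        · exact ⟨d₀, hd₀, d₀, hd₀, c, hcB, by group⟩
        · by_contra hcon
          push Not at hcon
          apply hcB
          have hins : insert c B ∈ Sep := by
            refine ⟨?_, ?_⟩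
            · intro y hy
              rcases Set.mem_insert_iff.1 hy with rfl | hy
              · exact hc
              · exact hBA hy
            · intro b hb b' hb' d hd d' hd' hdd
              rcases Set.mem_insert_iff.1 hb with hb1 | hb1 <;>
                rcases Set.mem_insert_iff.1 hb' with hb2 | hb2
              · rw [hb1, hb2]
              · exfalso
                apply hcon d hd d' hd' b' hb2
                rw [hb1] at hdd
                rw [mul_assoc, ← hdd]
                group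
              · exfalso
                apply hcon d' hd' d hd b hb1
                rw [hb2] at hdd
                rw [mul_assoc, hdd]
                group
              · exact hBsep b hb1 b' hb2 d hd d' hd' hdd
          exact hBmax hins (Set.subset_insert _ _) (Set.mem_insert _ _)
      refine ⟨(F ×ˢ (D ×ˢ D)).image
        (fun t : H × (G × G) => ((t.1 : G))⁻¹ * ((t.2.1)⁻¹ * t.2.2)), ?_⟩
      intro g
      obtain ⟨f, hf, hfg⟩ := hF g
      obtain ⟨d, hd, d', hd', b, hb, hc⟩ := hcov _ hfg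
      refine ⟨((f : G))⁻¹ * (d⁻¹ * d'), ?_, b, hb, ?_⟩
      · exact Finset.mem_image.2 ⟨(f, (d, d')), by simp [hf, hd, hd'], rfl⟩
      · calc g = ((f : G))⁻¹ * ((f : G) * g) := by group
          _ = ((f : G))⁻¹ * (d⁻¹ * d' * b) := by rw [hc]
          _ = _ := by group

lemma of_amenable_normal {G : Type u} [Group G] (N : Subgroup G) (hNn : N.Normal)
    (hinf : Infinite N) (hN : IsAmenable N) : HasSyndeticSubmeasure G := by
  classical
  have hG : Infinite G := Infinite.of_injective (fun x : N => (x : G)) Subtype.val_injective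
  refine of_uniformly_infinite ⟨N, hN, fun k => ?_⟩
  obtain ⟨D, hD⟩ := Infinite.exists_subset_card_eq N k
  refine ⟨D.image Subtype.val, fun g => ⟨D.image Subtype.val, subset_rfl, ?_, ?_⟩⟩
  · rw [Finset.card_image_of_injective _ Subtype.val_injective, hD]
  · intro d hd
    obtain ⟨e, -, rfl⟩ := Finset.mem_image.1 hd
    have := hNn.conj_mem (e : G) e.2 g⁻¹
    simpa using this

/-! ## Groups with finite colourings of small density -/

section spread

/-- configurations: at level `N` a colouring of `G` with `r N` colours -/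
abbrev Om (G : Type u) (r : ℕ → ℕ) : Type u := (p : ℕ × G) → Fin (r p.1)

variable {G : Type u} [Group G] {r : ℕ → ℕ}

/-- the right translation action -/
def act (h : G) (ω : Om G r) : Om G r := fun p => ω (p.1, p.2 * h)

lemma act_act (g h : G) (ω : Om G r) : act g (act h ω) = act (g * h) ω := by
  funext p
  exact @congrArg G (Fin (r p.1)) _ _ (fun t => ω (p.1, t)) (mul_assoc p.2 g h)

lemma act_one (ω : Om G r) : act (1 : G) ω = ω := by
  funext p
  exact @congrArg G (Fin (r p.1)) _ _ (fun t => ω (p.1, t)) (mul_one p.2)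

lemma act_cont (h : G) : Continuous (act h : Om G r → Om G r) :=
  continuous_pi fun p => continuous_apply (p.1, p.2 * h)

open Classical in
/-- the number of `j` with `P j` -/
noncomputable def cnt {ι : Type} [Fintype ι] (P : ι → Prop) : ℝ := ∑ j, if P j then (1 : ℝ) else 0

lemma cnt_mono {ι : Type} [Fintype ι] {P Q : ι → Prop} (h : ∀ j, P j → Q j) : cnt P ≤ cnt Q := by
  classical
  unfold cnt
  refine Finset.sum_le_sum fun j _ => ?_
  by_cases hP : P j
  · simp [hP, h j hP]
  · by_cases hQ : Q j <;> simp [hP, hQ]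

lemma cnt_le {ι : Type} [Fintype ι] (P : ι → Prop) : cnt P ≤ Fintype.card ι := by
  classical
  unfold cnt
  calc (∑ j, if P j then (1 : ℝ) else 0) ≤ ∑ j : ι, (1 : ℝ) := by
        refine Finset.sum_le_sum fun j _ => ?_
        split_ifs <;> norm_num
    _ = Fintype.card ι := by simp

lemma cnt_univ {ι : Type} [Fintype ι] {P : ι → Prop} (h : ∀ j, P j) :
    cnt P = Fintype.card ι := by
  classical
  unfold cnt
  simp [h]

lemma cnt_nonneg {ι : Type} [Fintype ι] (P : ι → Prop) : 0 ≤ cnt P := by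
  classical
  unfold cnt
  refine Finset.sum_nonneg fun j _ => ?_
  split_ifs <;> norm_num

lemma cnt_or {ι : Type} [Fintype ι] (P Q : ι → Prop) :
    cnt (fun j => P j ∨ Q j) ≤ cnt P + cnt Q := by
  classical
  unfold cnt
  rw [← Finset.sum_add_distrib]
  refine Finset.sum_le_sum fun j _ => ?_
  by_cases hP : P j <;> by_cases hQ : Q j <;> simp [hP, hQ]

lemma cnt_prod {ι κ : Type} [Fintype ι] [Fintype κ] (P : ι × κ → Prop) :
    cnt P = ∑ i, cnt (fun k => P (i, k)) := by
  classical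
  unfold cnt
  rw [Fintype.sum_prod_type]

lemma cnt_prod' {ι κ : Type} [Fintype ι] [Fintype κ] (P : ι × κ → Prop) :
    cnt P = ∑ k, cnt (fun i => P (i, k)) := by
  classical
  unfold cnt
  rw [Fintype.sum_prod_type_right]

lemma cnt_eq_card {ι : Type} [Fintype ι] (P : ι → Prop) : cnt P = (Nat.card {j // P j} : ℝ) := by
  classical
  unfold cnt
  rw [Nat.card_eq_fintype_card, Fintype.card_subtype, Finset.sum_boole]

/-- closed invariant nonempty subsets -/
def IsFlow (X : Set (Om G r)) : Prop :=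
  IsClosed X ∧ X.Nonempty ∧ ∀ (h : G), ∀ ω ∈ X, act h ω ∈ X

lemma exists_minimal (Y : Set (Om G r)) (hY : IsFlow Y) :
    ∃ X ⊆ Y, Minimal IsFlow X := by
  obtain ⟨X, hXY, hX⟩ := zorn_superset_nonempty {C : Set (Om G r) | IsFlow C} (by
    intro c hc hchain hcne
    refine ⟨⋂₀ c, ⟨?_, ?_, ?_⟩, fun s hs => Set.sInter_subset_of_mem hs⟩
    · exact isClosed_sInter fun s hs => (hc hs).1
    · have : Nonempty c := hcne.to_subtype
      apply IsCompact.nonempty_sInter_of_directed_nonempty_isCompact_isClosed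
      · intro a ha b hb
        rcases hchain.total ha hb with h | h
        · exact ⟨a, ha, subset_rfl, h⟩
        · exact ⟨b, hb, h, subset_rfl⟩
      · exact fun U hU => (hc hU).2.1
      · exact fun U hU => (hc hU).1.isCompact
      · exact fun U hU => (hc hU).1
    · intro h ω hω s hs
      exact (hc hs).2.2 h ω (hω s hs)) Y hY
  exact ⟨X, hXY, hX⟩

variable {X : Set (Om G r)}

/-- a nonempty relatively open subset of a minimal flow is visited with bounded gaps -/
lemma syndetic_of_minimal (hX : Minimal IsFlow X) {U : Set (Om G r)} (hU : IsOpen U)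
    (hXU : (X ∩ U).Nonempty) : ∃ F : Finset G, ∀ x ∈ X, ∃ f ∈ F, act f x ∈ U := by
  have hcov : X ⊆ ⋃ g : G, act g ⁻¹' U := by
    by_contra hcon
    have hflow : IsFlow (X ∩ (⋃ g : G, act g ⁻¹' U)ᶜ) := by
      refine ⟨hX.prop.1.inter ?_, ?_, ?_⟩
      · exact (isOpen_iUnion fun g => hU.preimage (act_cont g)).isClosed_compl
      · rw [Set.not_subset] at hcon
        obtain ⟨x, hx, hx'⟩ := hcon
        exact ⟨x, hx, hx'⟩
      · rintro h ω ⟨hω, hω'⟩
        refine ⟨hX.prop.2.2 h ω hω, ?_⟩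
        intro hmem
        apply hω'
        obtain ⟨g, hg⟩ := Set.mem_iUnion.1 hmem
        refine Set.mem_iUnion.2 ⟨g * h, ?_⟩
        show act (g * h) ω ∈ U
        rw [← act_act]
        exact hg
    have hsub := hX.le_of_le hflow Set.inter_subset_left
    obtain ⟨x, hx, hxU⟩ := hXU
    apply (hsub hx).2
    exact Set.mem_iUnion.2 ⟨1, by show act 1 x ∈ U; rw [act_one]; exact hxU⟩
  obtain ⟨F, hF⟩ := hX.prop.1.isCompact.elim_finite_subcover (fun g : G => act g ⁻¹' U)
    (fun g => hU.preimage (act_cont g)) hcov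
  refine ⟨F, fun x hx => ?_⟩
  obtain ⟨f, hf, hfx⟩ := Set.mem_iUnion₂.1 (hF hx)
  exact ⟨f, hf, hfx⟩

/-- closure of the partial orbit -/
def cl (x₀ : Om G r) (A : Set G) : Set (Om G r) := closure ((fun a => act a x₀) '' A)

/-- upper bounds for the density of `A` -/
def TT (X : Set (Om G r)) (x₀ : Om G r) (A : Set G) : Set ℝ :=
  {a | 0 ≤ a ∧ ∃ (ι : Type) (_ : Fintype ι) (d : ι → G), 0 < Fintype.card ι ∧
    ∀ y ∈ X, ∀ g : G, cnt (fun j => act (g * d j) y ∈ cl x₀ A) ≤ a * Fintype.card ι}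

lemma TT_bdd (x₀ : Om G r) (A : Set G) : BddBelow (TT X x₀ A) := ⟨0, fun _ ha => ha.1⟩

lemma one_mem_TT (x₀ : Om G r) (A : Set G) : (1 : ℝ) ∈ TT X x₀ A := by
  refine ⟨zero_le_one, Unit, inferInstance, fun _ => 1, by simp, fun y _ g => ?_⟩
  rw [one_mul]
  exact cnt_le _

lemma TT_add (hX : ∀ (h : G), ∀ ω ∈ X, act h ω ∈ X) (x₀ : Om G r) (A B : Set G) {a b : ℝ}
    (ha : a ∈ TT X x₀ A) (hb : b ∈ TT X x₀ B) : a + b ∈ TT X x₀ (A ∪ B) := by
  obtain ⟨ha0, ι, _, d, hι, hd⟩ := ha
  obtain ⟨hb0, κ, _, e, hκ, he⟩ := hb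
  refine ⟨add_nonneg ha0 hb0, ι × κ, inferInstance, fun p => d p.1 * e p.2, ?_, ?_⟩
  · rw [Fintype.card_prod]
    exact Nat.mul_pos hι hκ
  · intro y hy g
    have h1 : cnt (fun p : ι × κ => act (g * (d p.1 * e p.2)) y ∈ cl x₀ A)
        ≤ a * Fintype.card ι * Fintype.card κ := by
      rw [cnt_prod']
      calc ∑ k : κ, cnt (fun i => act (g * (d i * e k)) y ∈ cl x₀ A)
          ≤ ∑ k : κ, a * Fintype.card ι := by
            refine Finset.sum_le_sum fun k _ => ?_
            refine le_trans (cnt_mono fun i hi => ?_) (hd (act (e k) y) (hX _ _ hy) g)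
            rw [act_act, mul_assoc]
            exact hi
        _ = a * Fintype.card ι * Fintype.card κ := by
            rw [Finset.sum_const, Finset.card_univ, nsmul_eq_mul]; ring
    have h2 : cnt (fun p : ι × κ => act (g * (d p.1 * e p.2)) y ∈ cl x₀ B)
        ≤ b * Fintype.card ι * Fintype.card κ := by
      rw [cnt_prod]
      calc ∑ i : ι, cnt (fun k => act (g * (d i * e k)) y ∈ cl x₀ B)
          ≤ ∑ i : ι, b * Fintype.card κ := by
            refine Finset.sum_le_sum fun i _ => ?_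
            refine le_trans (cnt_mono fun k hk => ?_) (he y hy (g * d i))
            rw [mul_assoc]
            exact hk
        _ = b * Fintype.card ι * Fintype.card κ := by
            rw [Finset.sum_const, Finset.card_univ, nsmul_eq_mul]; ring
    have h3 : cnt (fun p : ι × κ => act (g * (d p.1 * e p.2)) y ∈ cl x₀ (A ∪ B))
        ≤ cnt (fun p : ι × κ => act (g * (d p.1 * e p.2)) y ∈ cl x₀ A ∨
            act (g * (d p.1 * e p.2)) y ∈ cl x₀ B) := by
      refine cnt_mono fun p hp => ?_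
      unfold cl at hp ⊢
      rw [Set.image_union, closure_union] at hp
      exact hp
    have h4 := cnt_or (fun p : ι × κ => act (g * (d p.1 * e p.2)) y ∈ cl x₀ A)
      (fun p : ι × κ => act (g * (d p.1 * e p.2)) y ∈ cl x₀ B)
    rw [Fintype.card_prod, Nat.cast_mul]
    calc cnt (fun p : ι × κ => act (g * (d p.1 * e p.2)) y ∈ cl x₀ (A ∪ B))
        ≤ _ := h3
      _ ≤ _ := h4
      _ ≤ a * Fintype.card ι * Fintype.card κ + b * Fintype.card ι * Fintype.card κ :=
          add_le_add h1 h2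
      _ = (a + b) * (Fintype.card ι * Fintype.card κ) := by ring

lemma TT_translate (x₀ : Om G r) (x : G) (A : Set G) :
    TT X x₀ A ⊆ TT X x₀ ((fun y => x * y) '' A) := by
  rintro a ⟨ha0, ι, _, d, hι, hd⟩
  refine ⟨ha0, ι, inferInstance, d, hι, fun y hy g => ?_⟩
  refine le_trans (cnt_mono fun j hj => ?_) (hd y hy (x⁻¹ * g))
  have h1 : act x⁻¹ (act (g * d j) y) ∈ cl x₀ A := by
    refine map_mem_closure (act_cont x⁻¹) hj ?_
    rintro _ ⟨_, ⟨b, hb, rfl⟩, rfl⟩
    refine ⟨b, hb, ?_⟩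
    show act b x₀ = act x⁻¹ (act (x * b) x₀)
    rw [act_act]
    congr 1
    group
  rw [act_act] at h1
  rw [mul_assoc]
  exact h1

lemma TT_translate_eq (x₀ : Om G r) (x : G) (A : Set G) :
    TT X x₀ ((fun y => x * y) '' A) = TT X x₀ A := by
  apply Set.Subset.antisymm
  · have := TT_translate (X := X) x₀ x⁻¹ ((fun y => x * y) '' A)
    rw [Set.image_image] at this
    simpa using this
  · exact TT_translate x₀ x A

end spread

lemma of_spread {G : Type u} [Group G] [Infinite G] (hS : Spread G) :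
    HasSyndeticSubmeasure G := by
  classical
  have hεN : ∀ N : ℕ, (0 : ℝ) < 1 / ((N : ℝ) + 1) := fun N => by positivity
  choose r c n d hn hd using fun N : ℕ => hS (1 / ((N : ℝ) + 1)) (hεN N)
  let Y : Set (Om G r) := {ω | ∀ (N : ℕ) (x z : G) (i : Fin (r N)),
    cnt (fun j : Fin (n N) => ω (N, x * d N j * z) = i) ≤ 1 / ((N : ℝ) + 1) * n N}
  have hY : IsFlow Y := by
    refine ⟨?_, ⟨fun p => c p.1 p.2, ?_⟩, ?_⟩
    · have : Y = ⋂ (N : ℕ) (x : G) (z : G) (i : Fin (r N)),
          {ω : Om G r | cnt (fun j : Fin (n N) => ω (N, x * d N j * z) = i)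
            ≤ 1 / ((N : ℝ) + 1) * n N} := by
        ext ω; simp [Y]
      rw [this]
      refine isClosed_iInter fun N => isClosed_iInter fun x => isClosed_iInter fun z =>
        isClosed_iInter fun i => ?_
      refine isClosed_le ?_ continuous_const
      unfold cnt
      refine continuous_finsetSum _ fun j _ => ?_
      have h1 : Continuous fun v : Fin (r N) => (if v = i then (1 : ℝ) else 0) :=
        continuous_of_discreteTopology
      have h2 : Continuous fun ω : Om G r => ω (N, x * d N j * z) :=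
        continuous_apply (N, x * d N j * z)
      refine (h1.comp h2).congr fun ω => ?_
      by_cases h3 : ω (N, x * d N j * z) = i <;> simp [h3]
    · intro N x z i
      rw [cnt_eq_card]
      exact hd N x z i
    · intro h ω hω N x z i
      have := hω N x (z * h) i
      refine le_trans (cnt_mono fun j hj => ?_) this
      have h2 : ω (N, x * d N j * z * h) = i := hj
      rw [← mul_assoc]
      exact h2
  obtain ⟨X, hXY, hX⟩ := exists_minimal Y hY
  obtain ⟨x₀, hx₀⟩ := hX.prop.2.1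
  have hXinv := hX.prop.2.2
  have hcl_univ : ∀ y ∈ X, y ∈ cl x₀ (Set.univ : Set G) := by
    have hflow : IsFlow (X ∩ cl x₀ (Set.univ : Set G)) := by
      refine ⟨hX.prop.1.inter isClosed_closure, ⟨x₀, hx₀, ?_⟩, ?_⟩
      · exact subset_closure ⟨1, Set.mem_univ _, act_one x₀⟩
      · rintro h ω ⟨hω, hω'⟩
        refine ⟨hXinv h ω hω, ?_⟩
        refine map_mem_closure (act_cont h) hω' ?_
        rintro _ ⟨a, -, rfl⟩
        exact ⟨h * a, Set.mem_univ _, (act_act h a x₀).symm⟩
    intro y hy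
    exact (hX.le_of_le hflow Set.inter_subset_left hy).2
  have hTne : ∀ A : Set G, (TT X x₀ A).Nonempty := fun A => ⟨1, one_mem_TT x₀ A⟩
  refine ⟨fun A => sInf (TT X x₀ A), ?_, ?_, ?_, ?_, ?_, ?_, ?_⟩
  · intro A
    exact ⟨le_csInf (hTne A) fun a ha => ha.1, csInf_le (TT_bdd x₀ A) (one_mem_TT x₀ A)⟩
  · apply le_antisymm
    · refine csInf_le (TT_bdd x₀ ∅) ?_
      refine ⟨le_rfl, Unit, inferInstance, fun _ => 1, by simp, fun y _ g => ?_⟩
      rw [show (cl x₀ (∅ : Set G)) = ∅ by simp [cl]]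
      simp [cnt]
    · exact le_csInf (hTne _) fun a ha => ha.1
  · apply le_antisymm
    · exact csInf_le (TT_bdd x₀ _) (one_mem_TT x₀ _)
    · refine le_csInf (hTne _) ?_
      rintro a ⟨ha0, ι, _, e, hι, he⟩
      have h1 := he x₀ hx₀ 1
      rw [cnt_univ (fun j => hcl_univ _ (hXinv _ _ hx₀))] at h1
      have h2 : (0 : ℝ) < Fintype.card ι := by exact_mod_cast hι
      by_contra hlt
      push Not at hlt
      nlinarith
  · intro A B hAB
    refine csInf_le_csInf (TT_bdd x₀ A) (hTne B) ?_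
    rintro a ⟨ha0, ι, _, e, hι, he⟩
    refine ⟨ha0, ι, inferInstance, e, hι, fun y hy g => le_trans (cnt_mono fun j hj => ?_)
      (he y hy g)⟩
    exact closure_mono (Set.image_mono hAB) hj
  · intro A B
    have h1 : ∀ a ∈ TT X x₀ A, ∀ b ∈ TT X x₀ B, sInf (TT X x₀ (A ∪ B)) ≤ a + b :=
      fun a ha b hb => csInf_le (TT_bdd x₀ _) (TT_add hXinv x₀ A B ha hb)
    have h2 : ∀ b ∈ TT X x₀ B, sInf (TT X x₀ (A ∪ B)) - b ≤ sInf (TT X x₀ A) := by
      intro b hb
      refine le_csInf (hTne A) fun a ha => ?_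
      linarith [h1 a ha b hb]
    have h3 : sInf (TT X x₀ (A ∪ B)) - sInf (TT X x₀ A) ≤ sInf (TT X x₀ B) := by
      refine le_csInf (hTne B) fun b hb => ?_
      linarith [h2 b hb]
    show sInf (TT X x₀ (A ∪ B)) ≤ sInf (TT X x₀ A) + sInf (TT X x₀ B)
    linarith
  · intro x A
    show sInf (TT X x₀ ((fun y => x * y) '' A)) = sInf (TT X x₀ A)
    rw [TT_translate_eq]
  · intro A hA ε hε
    have hεpos : 0 < ε := by
      rw [Nat.card_eq_zero_of_infinite] at hε
      simpa using hε
    obtain ⟨a, ha, ha1⟩ := exists_lt_of_csInf_lt (hTne A) hA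
    obtain ⟨ha0, ι, _, e, hι, he⟩ := ha
    have hy₀ : ∃ y₀ ∈ X, y₀ ∉ cl x₀ A := by
      by_contra hcon
      push Not at hcon
      have h1 := he x₀ hx₀ 1
      rw [cnt_univ (fun j => hcon _ (hXinv _ _ hx₀))] at h1
      have h2 : (0 : ℝ) < Fintype.card ι := by exact_mod_cast hι
      nlinarith
    obtain ⟨y₀, hy₀X, hy₀A⟩ := hy₀
    obtain ⟨N, hN⟩ := exists_nat_one_div_lt hεpos
    let V : Set (Om G r) := {ω | ω (N, 1) = y₀ (N, 1)}
    have hVclopen : IsClopen V := by
      have : V = (fun ω : Om G r => ω (N, 1)) ⁻¹' {y₀ (N, 1)} := rfl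
      rw [this]
      exact (isClopen_discrete _).preimage (continuous_apply (N, (1 : G)))
    let U : Set (Om G r) := (cl x₀ A)ᶜ ∩ V
    have hU : IsOpen U := isClosed_closure.isOpen_compl.inter hVclopen.isOpen
    obtain ⟨F, hF⟩ := syndetic_of_minimal hX hU ⟨y₀, hy₀X, hy₀A, rfl⟩
    refine ⟨{h | act h x₀ ∈ U}, ?_, ?_, ?_⟩
    · intro h hh hhA
      exact hh.1 (subset_closure ⟨h, hhA, rfl⟩)
    · refine lt_of_le_of_lt (csInf_le (TT_bdd x₀ _) ?_) hN
      refine ⟨(hεN N).le, Fin (n N), inferInstance, d N, by simpa using hn N, ?_⟩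
      intro y hy g
      have hclV : cl x₀ {h | act h x₀ ∈ U} ⊆ V := by
        refine closure_minimal ?_ hVclopen.isClosed
        rintro _ ⟨h, hh, rfl⟩
        exact hh.2
      have h1 := hXY hy N g 1 (y₀ (N, 1))
      rw [Fintype.card_fin]
      refine le_trans (cnt_mono fun j hj => ?_) h1
      have h2 : act (g * d N j) y (N, 1) = y₀ (N, 1) := hclV hj
      have h3 : act (g * d N j) y (N, 1) = y (N, 1 * (g * d N j)) := rfl
      rw [h3, one_mul] at h2
      rw [mul_one]
      exact h2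
    · refine ⟨F.image fun f => f⁻¹, fun g => ?_⟩
      obtain ⟨f, hf, hfU⟩ := hF (act g x₀) (hXinv g x₀ hx₀)
      refine ⟨f⁻¹, Finset.mem_image_of_mem _ hf, f * g, ?_, by group⟩
      show act (f * g) x₀ ∈ U
      rw [← act_act]
      exact hfU

/-! ## A characterisation without quantification over all sets -/

lemma Syn.mono {G : Type u} [Group G] {A B : Set G} (h : Syn A) (hAB : A ⊆ B) : Syn B := by
  obtain ⟨F, hF⟩ := h
  refine ⟨F, fun g => ?_⟩
  obtain ⟨f, hf, b, hb, hg⟩ := hF g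
  exact ⟨f, hf, b, hAB hb, hg⟩

lemma thin_of_has {G : Type u} [Group G] [Infinite G] (h : HasSyndeticSubmeasure G) :
    HasThinSequence G := by
  classical
  obtain ⟨μ, h01, h0, h1, hmono, hsub, hinv, hsyn⟩ := h
  have hB : ∀ n : ℕ, ∃ B : Set G, μ B < 1 / ((n : ℝ) + 1) ∧ Syn B := by
    intro n
    obtain ⟨B, -, hB, F, hF⟩ := hsyn ∅ (by rw [h0]; exact one_pos) (1 / ((n : ℝ) + 1)) (by
      rw [Nat.card_eq_zero_of_infinite]
      simp only [Nat.cast_zero, div_zero]
      positivity)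
    exact ⟨B, hB, F, hF⟩
  choose B hB hBs using hB
  refine ⟨B, hBs, ?_⟩
  intro ι _ n g hlt
  have hfin : ∀ s : Finset ι, μ (⋃ i ∈ s, (fun y => (g i)⁻¹ * y) '' B (n i))
      ≤ ∑ i ∈ s, (1 : ℝ) / ((n i : ℝ) + 1) := by
    intro s
    induction s using Finset.induction_on with
    | empty => simp [h0]
    | insert a s ha ih =>
      rw [Finset.set_biUnion_insert, Finset.sum_insert ha]
      refine (hsub _ _).trans (add_le_add ?_ ih)
      rw [hinv]
      exact (hB (n a)).le
  have hlt' : μ (⋃ i ∈ (Finset.univ : Finset ι), (fun y => (g i)⁻¹ * y) '' B (n i)) < 1 :=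
    (hfin Finset.univ).trans_lt hlt
  obtain ⟨C, hC, -, F, hF⟩ := hsyn _ hlt' 1 (by
    rw [Nat.card_eq_zero_of_infinite]
    simp)
  refine Syn.mono ⟨F, hF⟩ fun x hx i hi => hC hx ?_
  refine Set.mem_iUnion₂.2 ⟨i, Finset.mem_univ i, g i * x, hi, by simp⟩

/-- indicator configuration -/
noncomputable def ind {G : Type u} (B : ℕ → Set G) : Om G (fun _ => 2) := by
  classical
  exact fun p => if p.2 ∈ B p.1 then 1 else 0

lemma ind_eq {G : Type u} (B : ℕ → Set G) (n : ℕ) (x : G) : ind B (n, x) = 1 ↔ x ∈ B n := by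
  unfold ind
  by_cases h : x ∈ B n <;> simp [h]

/-- upper bounds for the covering density of `A` -/
def CC {G : Type u} [Group G] (x₀ : Om G (fun _ => 2)) (A : Set G) : Set ℝ :=
  {a | 0 ≤ a ∧ (1 ≤ a ∨ ∃ (ι : Type) (_ : Fintype ι) (n : ι → ℕ) (g : ι → G),
    ∑ i, (1 : ℝ) / ((n i : ℝ) + 1) ≤ a ∧ ∀ ω ∈ cl x₀ A, ∃ i, ω (n i, g i) = 1)}

lemma has_of_thin {G : Type u} [Group G] [Infinite G] (h : HasThinSequence G) :
    HasSyndeticSubmeasure G := by
  classical
  obtain ⟨B, hBs, hB⟩ := h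
  let Z : Set (Om G (fun _ => 2)) := closure (Set.range fun h : G => act h (ind B))
  have hZ : IsFlow Z := by
    refine ⟨isClosed_closure, ⟨act 1 (ind B), subset_closure ⟨1, rfl⟩⟩, ?_⟩
    intro h ω hω
    refine map_mem_closure (act_cont h) hω ?_
    rintro _ ⟨k, rfl⟩
    exact ⟨h * k, (act_act h k _).symm⟩
  have hcoord : ∀ (p : ℕ × G) (a : Fin 2), IsClopen {ω : Om G (fun _ => 2) | ω p = a} := by
    intro p a
    have : {ω : Om G (fun _ => 2) | ω p = a} = (fun ω : Om G (fun _ => 2) => ω p) ⁻¹' {a} := rfl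
    rw [this]
    exact (isClopen_discrete _).preimage (continuous_apply p)
  -- the two closed conditions
  have hZ1 : ∀ n : ℕ, ∀ ω ∈ Z, ∃ f : G, ω (n, f) = 1 := by
    intro n
    obtain ⟨F, hF⟩ := hBs n
    have hsub : Z ⊆ ⋃ f ∈ F, {ω : Om G (fun _ => 2) | ω (n, f⁻¹) = 1} := by
      refine closure_minimal ?_ (isClosed_biUnion_finset fun f _ => (hcoord _ _).isClosed)
      rintro _ ⟨h, rfl⟩
      obtain ⟨f, hf, b, hb, hfb⟩ := hF h
      refine Set.mem_iUnion₂.2 ⟨f, hf, ?_⟩
      show ind B (n, f⁻¹ * h) = 1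
      rw [ind_eq, hfb]
      simpa using hb
    intro ω hω
    obtain ⟨f, -, hf⟩ := Set.mem_iUnion₂.1 (hsub hω)
    exact ⟨f⁻¹, hf⟩
  have hZ2 : ∀ (ι : Type) [Fintype ι] (n : ι → ℕ) (g : ι → G),
      ∑ i, (1 : ℝ) / ((n i : ℝ) + 1) < 1 → ∀ ω ∈ Z, ∃ f : G, ∀ i, act f ω (n i, g i) ≠ 1 := by
    intro ι _ n g hlt
    obtain ⟨F, hF⟩ := hB ι n g hlt
    have hsub : Z ⊆ ⋃ f ∈ F, ⋂ i, {ω : Om G (fun _ => 2) | ω (n i, g i * f⁻¹) = 1}ᶜ := by
      refine closure_minimal ?_ (isClosed_biUnion_finset fun f _ =>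
        isClosed_iInter fun i => (hcoord _ _).isOpen.isClosed_compl)
      rintro _ ⟨h, rfl⟩
      obtain ⟨f, hf, b, hb, hfb⟩ := hF h
      refine Set.mem_iUnion₂.2 ⟨f, hf, Set.mem_iInter.2 fun i => ?_⟩
      intro hmem
      have h1 : ind B (n i, g i * f⁻¹ * h) = 1 := hmem
      rw [ind_eq, hfb] at h1
      apply hb i
      have : g i * f⁻¹ * (f * b) = g i * b := by group
      rwa [this] at h1
    intro ω hω
    obtain ⟨f, -, hf⟩ := Set.mem_iUnion₂.1 (hsub hω)
    refine ⟨f⁻¹, fun i hi => ?_⟩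
    exact (Set.mem_iInter.1 hf i) hi
  obtain ⟨X, hXZ, hX⟩ := exists_minimal Z hZ
  obtain ⟨x₀, hx₀⟩ := hX.prop.2.1
  have hXinv := hX.prop.2.2
  have hcl_univ : ∀ y ∈ X, y ∈ cl x₀ (Set.univ : Set G) := by
    have hflow : IsFlow (X ∩ cl x₀ (Set.univ : Set G)) := by
      refine ⟨hX.prop.1.inter isClosed_closure, ⟨x₀, hx₀, ?_⟩, ?_⟩
      · exact subset_closure ⟨1, Set.mem_univ _, act_one x₀⟩
      · rintro h ω ⟨hω, hω'⟩
        refine ⟨hXinv h ω hω, ?_⟩
        refine map_mem_closure (act_cont h) hω' ?_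
        rintro _ ⟨a, -, rfl⟩
        exact ⟨h * a, Set.mem_univ _, (act_act h a x₀).symm⟩
    intro y hy
    exact (hX.le_of_le hflow Set.inter_subset_left hy).2
  have hone : ∀ A : Set G, (1 : ℝ) ∈ CC x₀ A := fun A => ⟨zero_le_one, Or.inl le_rfl⟩
  have hne : ∀ A : Set G, (CC x₀ A).Nonempty := fun A => ⟨1, hone A⟩
  have hbdd : ∀ A : Set G, BddBelow (CC x₀ A) := fun A => ⟨0, fun _ ha => ha.1⟩
  have htr : ∀ (x : G) (A : Set G), CC x₀ A ⊆ CC x₀ ((fun y => x * y) '' A) := by
    rintro x A a ⟨ha0, ha⟩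
    refine ⟨ha0, ?_⟩
    rcases ha with ha | ⟨ι, _, n, g, hsum, hcov⟩
    · exact Or.inl ha
    · refine Or.inr ⟨ι, inferInstance, n, fun i => g i * x⁻¹, hsum, fun ω hω => ?_⟩
      have h1 : act x⁻¹ ω ∈ cl x₀ A := by
        refine map_mem_closure (act_cont x⁻¹) hω ?_
        rintro _ ⟨_, ⟨b, hb, rfl⟩, rfl⟩
        refine ⟨b, hb, ?_⟩
        show act b x₀ = act x⁻¹ (act (x * b) x₀)
        rw [act_act]
        congr 1
        group
      obtain ⟨i, hi⟩ := hcov _ h1
      exact ⟨i, hi⟩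
  refine ⟨fun A => sInf (CC x₀ A), ?_, ?_, ?_, ?_, ?_, ?_, ?_⟩
  · intro A
    exact ⟨le_csInf (hne A) fun a ha => ha.1, csInf_le (hbdd A) (hone A)⟩
  · apply le_antisymm
    · refine csInf_le (hbdd ∅) ⟨le_rfl, Or.inr ⟨Empty, inferInstance, Empty.elim, Empty.elim,
        by simp, fun ω hω => ?_⟩⟩
      simp [cl] at hω
    · exact le_csInf (hne _) fun a ha => ha.1
  · apply le_antisymm
    · exact csInf_le (hbdd _) (hone _)
    · refine le_csInf (hne _) ?_
      rintro a ⟨ha0, ha | ⟨ι, _, n, g, hsum, hcov⟩⟩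
      · exact ha
      · by_contra hlt
        push Not at hlt
        obtain ⟨f, hf⟩ := hZ2 ι n g (hsum.trans_lt hlt) x₀ (hXZ hx₀)
        obtain ⟨i, hi⟩ := hcov _ (hcl_univ _ (hXinv f x₀ hx₀))
        exact hf i hi
  · intro A A' hAA
    refine csInf_le_csInf (hbdd A) (hne A') ?_
    rintro a ⟨ha0, ha | ⟨ι, _, n, g, hsum, hcov⟩⟩
    · exact ⟨ha0, Or.inl ha⟩
    · exact ⟨ha0, Or.inr ⟨ι, inferInstance, n, g, hsum, fun ω hω =>
        hcov ω (closure_mono (Set.image_mono hAA) hω)⟩⟩
  · intro A A'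
    have h1 : ∀ a ∈ CC x₀ A, ∀ b ∈ CC x₀ A', sInf (CC x₀ (A ∪ A')) ≤ a + b := by
      rintro a ⟨ha0, ha⟩ b ⟨hb0, hb⟩
      refine csInf_le (hbdd _) ⟨add_nonneg ha0 hb0, ?_⟩
      rcases ha with ha | ⟨ι, _, n, g, hsum, hcov⟩
      · left; linarith
      rcases hb with hb | ⟨κ, _, m, k, hsum', hcov'⟩
      · left; linarith
      refine Or.inr ⟨ι ⊕ κ, inferInstance, Sum.elim n m, Sum.elim g k, ?_, fun ω hω => ?_⟩
      · rw [Fintype.sum_sum_type]
        simpa using add_le_add hsum hsum'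
      · unfold cl at hω
        rw [Set.image_union, closure_union] at hω
        rcases hω with hω | hω
        · obtain ⟨i, hi⟩ := hcov ω hω
          exact ⟨Sum.inl i, hi⟩
        · obtain ⟨i, hi⟩ := hcov' ω hω
          exact ⟨Sum.inr i, hi⟩
    have h2 : ∀ b ∈ CC x₀ A', sInf (CC x₀ (A ∪ A')) - b ≤ sInf (CC x₀ A) := by
      intro b hb
      refine le_csInf (hne A) fun a ha => ?_
      linarith [h1 a ha b hb]
    have h3 : sInf (CC x₀ (A ∪ A')) - sInf (CC x₀ A) ≤ sInf (CC x₀ A') := by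
      refine le_csInf (hne A') fun b hb => ?_
      linarith [h2 b hb]
    show sInf (CC x₀ (A ∪ A')) ≤ sInf (CC x₀ A) + sInf (CC x₀ A')
    linarith
  · intro x A
    show sInf (CC x₀ ((fun y => x * y) '' A)) = sInf (CC x₀ A)
    congr 1
    apply Set.Subset.antisymm
    · have := htr x⁻¹ ((fun y => x * y) '' A)
      rw [Set.image_image] at this
      simpa using this
    · exact htr x A
  · intro A hA ε hε
    have hεpos : 0 < ε := by
      rw [Nat.card_eq_zero_of_infinite] at hε
      simpa using hε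
    obtain ⟨a, ⟨ha0, ha⟩, ha1⟩ := exists_lt_of_csInf_lt (hne A) hA
    rcases ha with ha | ⟨ι, _, n, g, hsum, hcov⟩
    · linarith
    obtain ⟨f, hf⟩ := hZ2 ι n g (hsum.trans_lt ha1) x₀ (hXZ hx₀)
    obtain ⟨N, hN⟩ := exists_nat_one_div_lt hεpos
    obtain ⟨k, hk⟩ := hZ1 N (act f x₀) (hXZ (hXinv f x₀ hx₀))
    let V : Set (Om G (fun _ => 2)) := {ω | ω (N, k) = 1}
    let O : Set (Om G (fun _ => 2)) := ⋂ i, {ω : Om G (fun _ => 2) | ω (n i, g i) = 1}ᶜ
    have hO : IsOpen (O ∩ V) := by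
      refine IsOpen.inter ?_ (hcoord _ _).isOpen
      exact isOpen_iInter_of_finite fun i => (hcoord _ _).isClosed.isOpen_compl
    obtain ⟨F, hF⟩ := syndetic_of_minimal hX hO
      ⟨act f x₀, hXinv f x₀ hx₀, Set.mem_iInter.2 fun i => hf i, hk⟩
    refine ⟨{h | act h x₀ ∈ O ∩ V}, ?_, ?_, ?_⟩
    · intro h hh hhA
      obtain ⟨i, hi⟩ := hcov (act h x₀) (subset_closure ⟨h, hhA, rfl⟩)
      exact (Set.mem_iInter.1 hh.1 i) hi
    · refine lt_of_le_of_lt (csInf_le (hbdd _) ?_) hN
      refine ⟨by positivity, Or.inr ⟨Unit, inferInstance, fun _ => N, fun _ => k, by simp, ?_⟩⟩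
      intro ω hω
      refine ⟨(), ?_⟩
      have hclV : cl x₀ {h | act h x₀ ∈ O ∩ V} ⊆ V := by
        refine closure_minimal ?_ (hcoord _ _).isClosed
        rintro _ ⟨h, hh, rfl⟩
        exact hh.2
      exact hclV hω
    · refine ⟨F.image fun f => f⁻¹, fun g => ?_⟩
      obtain ⟨f, hf, hfU⟩ := hF (act g x₀) (hXinv g x₀ hx₀)
      refine ⟨f⁻¹, Finset.mem_image_of_mem _ hf, f * g, ?_, by group⟩
      show act (f * g) x₀ ∈ O ∩ V
      rw [← act_act]
      exact hfU

/-! ## Box-independent sequences -/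

lemma thin_of_box {G : Type u} [Group G] (h : HasBoxSequence G) : HasThinSequence G := by
  classical
  obtain ⟨U, hU, hU'⟩ := h
  let block : ℕ → Finset ℕ := fun n => (Finset.range (n + 1)).image (fun m => Nat.pair n m)
  refine ⟨fun n => {x | ∀ j ∈ block n, x ∈ U j}, fun n => hU _, ?_⟩
  intro ι _ n g hlt
  -- an enumeration of the indices
  let e : ι ≃ Fin (Fintype.card ι) := Fintype.equivFin ι
  let rk : ι → ℕ := fun i => (Finset.univ.filter fun i' : ι => n i' = n i ∧ e i' < e i).card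
  have hcard : ∀ i : ι, (Finset.univ.filter fun i' : ι => n i' = n i).card ≤ n i := by
    intro i
    by_contra hcon
    push Not at hcon
    have h1 : ((n i : ℝ) + 1) ≤ (Finset.univ.filter fun i' : ι => n i' = n i).card := by
      exact_mod_cast hcon
    have h2 : ∑ i' ∈ (Finset.univ.filter fun i' : ι => n i' = n i), (1 : ℝ) / ((n i' : ℝ) + 1)
        ≤ ∑ i', (1 : ℝ) / ((n i' : ℝ) + 1) :=
      Finset.sum_le_sum_of_subset_of_nonneg (Finset.filter_subset _ _)
        (fun i' _ _ => by positivity)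
    have h3 : ∑ i' ∈ (Finset.univ.filter fun i' : ι => n i' = n i), (1 : ℝ) / ((n i' : ℝ) + 1)
        = (Finset.univ.filter fun i' : ι => n i' = n i).card * (1 / ((n i : ℝ) + 1)) := by
      rw [Finset.sum_congr rfl (g := fun _ => (1 : ℝ) / ((n i : ℝ) + 1))]
      · rw [Finset.sum_const, nsmul_eq_mul]
      · intro i' hi'
        rw [(Finset.mem_filter.1 hi').2]
    have h4 : (0 : ℝ) < (n i : ℝ) + 1 := by positivity
    have h5 : (1 : ℝ) ≤ (Finset.univ.filter fun i' : ι => n i' = n i).card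
        * (1 / ((n i : ℝ) + 1)) := by
      rw [mul_one_div, le_div_iff₀ h4]
      linarith
    linarith
  have hrk : ∀ i, rk i < n i := by
    intro i
    refine lt_of_lt_of_le ?_ (hcard i)
    apply Finset.card_lt_card
    rw [Finset.ssubset_iff_of_subset]
    · exact ⟨i, by simp, by simp⟩
    · intro i' hi'
      simp only [Finset.mem_filter, Finset.mem_univ, true_and] at hi' ⊢
      exact hi'.1
  let j : ι → ℕ := fun i => Nat.pair (n i) (rk i)
  have hj : Function.Injective j := by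
    intro i i' hii
    obtain ⟨h1, h2⟩ := Nat.pair_eq_pair.1 hii
    by_contra hne
    have hne' : e i ≠ e i' := fun h => hne (e.injective h)
    rcases lt_or_gt_of_ne hne' with hlt | hlt
    · have : rk i < rk i' := by
        apply Finset.card_lt_card
        rw [Finset.ssubset_iff_of_subset]
        · exact ⟨i, by simp [h1, hlt], by simp⟩
        · intro k hk
          simp only [Finset.mem_filter, Finset.mem_univ, true_and] at hk ⊢
          exact ⟨hk.1.trans h1, hk.2.trans hlt⟩
      omega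
    · have : rk i' < rk i := by
        apply Finset.card_lt_card
        rw [Finset.ssubset_iff_of_subset]
        · exact ⟨i', by simp [h1, hlt], by simp⟩
        · intro k hk
          simp only [Finset.mem_filter, Finset.mem_univ, true_and] at hk ⊢
          exact ⟨hk.1.trans h1.symm, hk.2.trans hlt⟩
      omega
  -- the translates
  let γ : ℕ → G := fun k => if h : ∃ i, j i = k then g h.choose else 1
  have hγ : ∀ i, γ (j i) = g i := by
    intro i
    have hex : ∃ i', j i' = j i := ⟨i, rfl⟩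
    have : γ (j i) = g hex.choose := dif_pos hex
    rw [this, hj hex.choose_spec]
  refine Syn.mono (hU' (Finset.univ.image j) γ) fun x hx i hi => ?_
  have h1 := hx (j i) (Finset.mem_image_of_mem _ (Finset.mem_univ i))
  rw [hγ] at h1
  apply h1
  apply hi
  refine Finset.mem_image.2 ⟨rk i, ?_, rfl⟩
  rw [Finset.mem_range]
  exact (hrk i).trans (Nat.lt_succ_self _)

/-- in a nontrivial group there is a set such that both the set and its complement meet every
`{x, a x, a² x}` -/
lemma exists_alternating {Q : Type u} [Group Q] (a : Q) (ha : a ≠ 1) :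
    ∃ U : Set Q, (∀ x, x ∈ U ∨ a * x ∈ U ∨ a * (a * x) ∈ U) ∧
      ∀ x, x ∈ Uᶜ ∨ a * x ∈ Uᶜ ∨ a * (a * x) ∈ Uᶜ := by
  obtain ⟨U, -, hU⟩ := zorn_subset_nonempty {U : Set Q | ∀ x ∈ U, a * x ∉ U} (by
    intro c hc hchain hcne
    refine ⟨⋃₀ c, ?_, fun s hs => Set.subset_sUnion_of_mem hs⟩
    rintro x ⟨s, hs, hxs⟩ ⟨s', hs', hxs'⟩
    rcases hchain.total hs hs' with h | h
    · exact hc hs' x (h hxs) hxs'
    · exact hc hs x hxs (h hxs')) ∅ (by intro x hx; exact hx.elim)
  have hprop : ∀ x ∈ U, a * x ∉ U := hU.prop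
  refine ⟨U, fun x => ?_, fun x => ?_⟩
  · by_contra hcon
    push Not at hcon
    obtain ⟨h1, h2, h3⟩ := hcon
    apply h2
    have hins : insert (a * x) U ∈ {U : Set Q | ∀ x ∈ U, a * x ∉ U} := by
      intro y hy hy'
      rcases Set.mem_insert_iff.1 hy with hy | hy <;>
        rcases Set.mem_insert_iff.1 hy' with hy' | hy'
      · rw [hy] at hy'
        exact ha (mul_eq_right.1 hy')
      · rw [hy] at hy'
        exact h3 hy'
      · exact h1 (mul_left_cancel hy' ▸ hy)
      · exact hprop y hy hy'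
    exact hU.le_of_ge hins (Set.subset_insert _ _) (Set.mem_insert _ _)
  · by_contra hcon
    push Not at hcon
    simp only [Set.mem_compl_iff, not_not] at hcon
    exact hprop x hcon.1 hcon.2.1

lemma syn_of_crt {G : Type u} [Group G] (K : ℕ → Subgroup G) [hK : ∀ j, (K j).Normal]
    (hcrt : ∀ (s : Finset ℕ) (y : ℕ → G), ∃ g : G, ∀ j ∈ s, (y j)⁻¹ * g ∈ K j)
    (a : ℕ → G) (V : (j : ℕ) → Set (G ⧸ K j))
    (hV : ∀ j (x : G ⧸ K j), x ∈ V j ∨ (a j : G ⧸ K j) * x ∈ V j ∨
      (a j : G ⧸ K j) * ((a j : G ⧸ K j) * x) ∈ V j) (s : Finset ℕ) (γ : ℕ → G) :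
    Syn {x : G | ∀ j ∈ s, ((γ j * x : G) : G ⧸ K j) ∈ V j} := by
  classical
  have hf : ∀ k : s → Fin 3, ∃ g : G, ∀ j : s,
      (g : G ⧸ K j) = (((γ j)⁻¹ * (a j) ^ (k j : ℕ) * γ j : G) : G ⧸ K j) := by
    intro k
    obtain ⟨g, hg⟩ := hcrt s (fun j => if h : j ∈ s then
      (γ j)⁻¹ * (a j) ^ (k ⟨j, h⟩ : ℕ) * γ j else 1)
    refine ⟨g, fun j => ?_⟩
    have h1 := hg j j.2
    rw [dif_pos j.2] at h1
    exact ((QuotientGroup.eq).2 h1).symm
  choose f hf using hf
  refine ⟨Finset.univ.image f, fun g => ?_⟩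
  have hk : ∀ j : s, ∃ k : Fin 3,
      ((((a j) ^ (k : ℕ))⁻¹ * (γ j * g) : G) : G ⧸ K j) ∈ V j := by
    intro j
    rcases hV j ((((a j) ^ 2)⁻¹ * (γ j * g) : G) : G ⧸ K j) with h | h | h
    · exact ⟨2, h⟩
    · refine ⟨1, ?_⟩
      rw [← QuotientGroup.mk_mul] at h
      have h2 : (a j) * (((a j) ^ 2)⁻¹ * (γ j * g)) = ((a j) ^ ((1 : Fin 3) : ℕ))⁻¹ * (γ j * g) := by
        simp only [Fin.val_one, pow_one]
        group
      rwa [h2] at h
    · refine ⟨0, ?_⟩
      rw [← QuotientGroup.mk_mul, ← QuotientGroup.mk_mul] at h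
      have h2 : (a j) * ((a j) * (((a j) ^ 2)⁻¹ * (γ j * g)))
          = ((a j) ^ ((0 : Fin 3) : ℕ))⁻¹ * (γ j * g) := by
        simp only [Fin.val_zero, pow_zero]
        group
      rwa [h2] at h
  choose k hk using hk
  refine ⟨f k, Finset.mem_image_of_mem _ (Finset.mem_univ k), (f k)⁻¹ * g, ?_, by group⟩
  intro j hj
  have h1 := hf k ⟨j, hj⟩
  have h2 := hk ⟨j, hj⟩
  have h3 : ((γ j * ((f k)⁻¹ * g) : G) : G ⧸ K j)
      = (((((a j) ^ (k ⟨j, hj⟩ : ℕ))⁻¹ * (γ j * g) : G)) : G ⧸ K j) := by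
    rw [QuotientGroup.mk_mul, QuotientGroup.mk_mul, QuotientGroup.mk_inv, h1,
      ← QuotientGroup.mk_inv, ← QuotientGroup.mk_mul, ← QuotientGroup.mk_mul]
    congr 1
    group
  rw [h3]
  exact h2

lemma box_of_independent {G : Type u} [Group G] (h : HasIndependentQuotients G) :
    HasBoxSequence G := by
  classical
  obtain ⟨K, hK, hne, hcrt⟩ := h
  have ha : ∀ j, ∃ a : G, a ∉ K j := by
    intro j
    by_contra hcon
    push Not at hcon
    exact hne j (Subgroup.eq_top_iff' _ |>.2 hcon)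
  choose a ha using ha
  have hU : ∀ j, ∃ U : Set (G ⧸ K j),
      (∀ x, x ∈ U ∨ (a j : G ⧸ K j) * x ∈ U ∨ (a j : G ⧸ K j) * ((a j : G ⧸ K j) * x) ∈ U) ∧
      ∀ x, x ∈ Uᶜ ∨ (a j : G ⧸ K j) * x ∈ Uᶜ ∨ (a j : G ⧸ K j) * ((a j : G ⧸ K j) * x) ∈ Uᶜ :=
    fun j => exists_alternating _ (fun h => ha j ((QuotientGroup.eq_one_iff _).1 h))
  choose U hU1 hU2 using hU
  refine ⟨fun j => {x | (x : G ⧸ K j) ∈ U j}, fun s => ?_, fun s γ => ?_⟩
  · refine Syn.mono (syn_of_crt K hcrt a U hU1 s (fun _ => 1)) fun x hx j hj => ?_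
    have := hx j hj
    rwa [one_mul] at this
  · exact Syn.mono (syn_of_crt K hcrt a (fun j => (U j)ᶜ) hU2 s γ) fun x hx j hj => hx j hj

/-! ## Actions with many full symmetric stabilisers -/

section symm

variable {Ω : Type u} [LinearOrder Ω]

/-- two injections of a finite set into a linear order differ by a permutation, up to the
order pattern -/
lemma exists_perm_pattern {E : Type u} [Fintype E] (a b : E → Ω) (ha : Function.Injective a)
    (hb : Function.Injective b) :
    ∃ τ : Equiv.Perm E, ∀ e e' : E, b (τ e) < b (τ e') ↔ a e < a e' := by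
  classical
  let A : Finset Ω := Finset.univ.image a
  let B : Finset Ω := Finset.univ.image b
  have hA : A.card = Fintype.card E := by
    rw [Finset.card_image_of_injective _ ha, Finset.card_univ]
  have hB : B.card = Fintype.card E := by
    rw [Finset.card_image_of_injective _ hb, Finset.card_univ]
  let iA := A.orderIsoOfFin hA
  let iB := B.orderIsoOfFin hB
  let ea : E ≃ A := Equiv.ofBijective (fun e => ⟨a e, Finset.mem_image_of_mem _ (Finset.mem_univ e)⟩)
    ⟨fun e e' h => ha (congrArg Subtype.val h), fun y => by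
      obtain ⟨e, -, he⟩ := Finset.mem_image.1 y.2
      exact ⟨e, Subtype.ext he⟩⟩
  let eb : E ≃ B := Equiv.ofBijective (fun e => ⟨b e, Finset.mem_image_of_mem _ (Finset.mem_univ e)⟩)
    ⟨fun e e' h => hb (congrArg Subtype.val h), fun y => by
      obtain ⟨e, -, he⟩ := Finset.mem_image.1 y.2
      exact ⟨e, Subtype.ext he⟩⟩
  refine ⟨ea.trans ((iA.symm.toEquiv.trans iB.toEquiv).trans eb.symm), fun e e' => ?_⟩
  have h1 : ∀ e, b ((ea.trans ((iA.symm.toEquiv.trans iB.toEquiv).trans eb.symm)) e)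
      = (iB (iA.symm (ea e)) : Ω) := by
    intro e
    have : eb ((ea.trans ((iA.symm.toEquiv.trans iB.toEquiv).trans eb.symm)) e)
        = iB (iA.symm (ea e)) := by simp
    exact congrArg Subtype.val this
  rw [h1, h1]
  rw [Subtype.coe_lt_coe, iB.lt_iff_lt, iA.symm.lt_iff_lt]
  rfl

end symm

lemma syn_pattern {G : Type u} [Group G] {Ω : Type u} [LinearOrder Ω] [MulAction G Ω]
    (E : Finset Ω) (hE : ∀ σ : Equiv.Perm E, ∃ g : G, ∀ e : E, g • (e : Ω) = σ e)
    (a : E → Ω) (ha : Function.Injective a) :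
    Syn {x : G | ∀ e e' : E, x⁻¹ • (e : Ω) < x⁻¹ • (e' : Ω) ↔ a e < a e'} := by
  classical
  choose f hf using hE
  refine ⟨Finset.univ.image f, fun g => ?_⟩
  obtain ⟨τ, hτ⟩ := exists_perm_pattern a (fun e : E => g⁻¹ • (e : Ω)) ha
    (fun e e' h => Subtype.ext (smul_left_cancel _ h))
  refine ⟨f τ, Finset.mem_image_of_mem _ (Finset.mem_univ τ), (f τ)⁻¹ * g, ?_, by group⟩
  intro e e'
  rw [mul_inv_rev, inv_inv, mul_smul, mul_smul, hf, hf]
  exact hτ e e'

lemma thin_of_symmetric {G : Type u} [Group G] (h : HasSymmetricAction G) :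
    HasThinSequence G := by
  classical
  obtain ⟨Ω, hact, hinf, hsymm⟩ := h
  let hlin : LinearOrder Ω := linearOrderOfSTO (WellOrderingRel (α := Ω))
  let u : ℕ ↪ Ω := Infinite.natEmbedding Ω
  refine ⟨fun n => {x | ∀ j : ℕ, 1 ≤ j → j ≤ n → x⁻¹ • u 0 < x⁻¹ • u j}, fun n => ?_, ?_⟩
  · obtain ⟨E, hSE, hE⟩ := hsymm ((Finset.range (n + 1)).image u)
    have hu : ∀ j, j ≤ n → u j ∈ E := fun j hj =>
      hSE (Finset.mem_image_of_mem _ (Finset.mem_range.2 (Nat.lt_succ_of_le hj)))
    -- an injection for which `u 0` is the least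
    obtain ⟨m, hm, hmin⟩ := Finset.exists_min_image E (fun e => e) ⟨u 0, hu 0 (Nat.zero_le _)⟩
    let σ : Equiv.Perm Ω := Equiv.swap (u 0) m
    refine Syn.mono (syn_pattern E hE (fun e => σ e)
      (fun e e' h => Subtype.ext (σ.injective h))) fun x hx j hj1 hjn => ?_
    rw [hx ⟨u 0, hu 0 (Nat.zero_le _)⟩ ⟨u j, hu j hjn⟩]
    show σ (u 0) < σ (u j)
    have h1 : σ (u 0) = m := Equiv.swap_apply_left _ _
    have h2 : σ (u j) ∈ E := by
      by_cases hjm : u j = m
      · rw [hjm]
        show Equiv.swap (u 0) m m ∈ E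
        rw [Equiv.swap_apply_right]
        exact hu 0 (Nat.zero_le _)
      · show Equiv.swap (u 0) m (u j) ∈ E
        rw [Equiv.swap_apply_of_ne_of_ne (fun h => by
          have := u.injective h; omega) hjm]
        exact hu j hjn
    have h3 : σ (u 0) ≠ σ (u j) := fun h => by
      have := u.injective (σ.injective h); omega
    rw [h1] at h3 ⊢
    exact lt_of_le_of_ne (hmin _ h2) h3
  · intro ι _ n g hlt
    let S : Finset Ω := Finset.univ.biUnion fun i : ι =>
      (Finset.range (n i + 1)).image fun j => (g i)⁻¹ • u j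
    obtain ⟨E, hSE, hE⟩ := hsymm S
    have hmem : ∀ (i : ι) (j : ℕ), j ≤ n i → (g i)⁻¹ • u j ∈ E := fun i j hj =>
      hSE (Finset.mem_biUnion.2 ⟨i, Finset.mem_univ i,
        Finset.mem_image_of_mem _ (Finset.mem_range.2 (Nat.lt_succ_of_le hj))⟩)
    let p : (i : ι) → Fin (n i + 1) → E := fun i j =>
      ⟨(g i)⁻¹ • u j, hmem i j (Nat.lt_succ_iff.1 j.2)⟩
    have hpinj : ∀ i, Function.Injective (p i) := by
      intro i j j' h
      have h1 : (g i)⁻¹ • u j = (g i)⁻¹ • u j' := congrArg Subtype.val h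
      exact Fin.ext (u.injective (smul_left_cancel _ h1))
    let Bad : ι → Finset (Equiv.Perm E) := fun i =>
      Finset.univ.filter fun σ => ∀ j : Fin (n i + 1), j ≠ 0 → σ (p i 0) < σ (p i j)
    have hBad : ∀ i, (Bad i).card * (n i + 1) ≤ Fintype.card (Equiv.Perm E) := by
      intro i
      have h1 : Function.Injective (fun q : (Bad i) × Fin (n i + 1) =>
          (Equiv.swap (p i 0) (p i q.2)).trans (q.1 : Equiv.Perm E)) := by
        rintro ⟨⟨σ, hσ⟩, j⟩ ⟨⟨σ', hσ'⟩, j'⟩ h
        have hσ1 : ∀ j : Fin (n i + 1), j ≠ 0 → σ (p i 0) < σ (p i j) :=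
          (Finset.mem_filter.1 hσ).2
        have hσ1' : ∀ j : Fin (n i + 1), j ≠ 0 → σ' (p i 0) < σ' (p i j) :=
          (Finset.mem_filter.1 hσ').2
        -- the minimum is attained at `j`
        have key : ∀ (σ : Equiv.Perm E), (∀ j : Fin (n i + 1), j ≠ 0 → σ (p i 0) < σ (p i j)) →
            ∀ (j k : Fin (n i + 1)), k ≠ j →
            ((Equiv.swap (p i 0) (p i j)).trans σ) (p i j)
              < ((Equiv.swap (p i 0) (p i j)).trans σ) (p i k) := by
          intro σ hσ j k hkj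
          rw [Equiv.trans_apply, Equiv.trans_apply, Equiv.swap_apply_right]
          by_cases hk0 : k = 0
          · rw [hk0, Equiv.swap_apply_left]
            exact hσ j (fun h => hkj (hk0.trans h.symm))
          · rw [Equiv.swap_apply_of_ne_of_ne (fun h => hk0 (hpinj i h))
              (fun h => hkj (hpinj i h))]
            exact hσ k hk0
        have h' : (Equiv.swap (p i 0) (p i j)).trans σ = (Equiv.swap (p i 0) (p i j')).trans σ' := h
        have hjj : j = j' := by
          by_contra hne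
          have h2 := key σ hσ1 j j' (fun h => hne h.symm)
          have h3 := key σ' hσ1' j' j hne
          rw [h'] at h2
          exact lt_asymm h2 h3
        subst hjj
        have hσσ : σ = σ' := by
          ext e
          have h4 := congrArg (fun t : Equiv.Perm E => t (Equiv.swap (p i 0) (p i j) e)) h'
          simp only [Equiv.trans_apply, Equiv.swap_apply_self] at h4
          rw [h4]
        subst hσσ
        rfl
      have h2 := Fintype.card_le_of_injective _ h1
      rw [Fintype.card_prod, Fintype.card_coe, Fintype.card_fin] at h2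
      exact h2
    -- a good permutation
    have hgood : ∃ σ : Equiv.Perm E, ∀ i, σ ∉ Bad i := by
      by_contra hcon
      push Not at hcon
      have h1 : (Finset.univ : Finset (Equiv.Perm E)) ⊆ Finset.univ.biUnion Bad := by
        intro σ _
        obtain ⟨i, hi⟩ := hcon σ
        exact Finset.mem_biUnion.2 ⟨i, Finset.mem_univ i, hi⟩
      have h2 := (Finset.card_le_card h1).trans Finset.card_biUnion_le
      rw [Finset.card_univ] at h2
      have h3 : (0 : ℝ) < Fintype.card (Equiv.Perm E) := by exact_mod_cast Fintype.card_pos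
      have h4 : (Fintype.card (Equiv.Perm E) : ℝ) ≤ ∑ i, ((Bad i).card : ℝ) := by exact_mod_cast h2
      have h5 : ∑ i, ((Bad i).card : ℝ)
          ≤ ∑ i, (Fintype.card (Equiv.Perm E) : ℝ) * (1 / ((n i : ℝ) + 1)) := by
        refine Finset.sum_le_sum fun i _ => ?_
        have h6 : (0 : ℝ) < (n i : ℝ) + 1 := by positivity
        rw [mul_one_div, le_div_iff₀ h6]
        exact_mod_cast hBad i
      rw [← Finset.mul_sum] at h5
      nlinarith
    obtain ⟨σ, hσ⟩ := hgood
    refine Syn.mono (syn_pattern E hE (fun e => (σ e : Ω))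
      (fun e e' h => σ.injective (Subtype.ext h))) fun x hx i hi => ?_
    apply hσ i
    refine Finset.mem_filter.2 ⟨Finset.mem_univ _, fun j hj => ?_⟩
    have h1 := hi j (Nat.one_le_iff_ne_zero.2 (fun h => hj (Fin.ext h))) (Nat.lt_succ_iff.1 j.2)
    rw [mul_inv_rev, mul_smul, mul_smul] at h1
    have h2 := (hx (p i 0) (p i j)).1 h1
    exact h2

/-! ## Quasimorphisms, compact images, finite quotients -/

lemma spread_of_injOn {G : Type u} [Group G]
    (h : ∀ m : ℕ, ∃ (r : ℕ) (c : G → Fin r) (d : Fin m → G), ∀ (x z : G) (i j : Fin m),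
      c (x * d i * z) = c (x * d j * z) → i = j) : Spread G := by
  intro ε hε
  obtain ⟨m, hm⟩ := exists_nat_gt (1 / ε)
  have hmpos : (0 : ℝ) < m := lt_of_le_of_lt (by positivity) hm
  obtain ⟨r, c, d, hd⟩ := h m
  refine ⟨r, c, m, d, by exact_mod_cast hmpos, fun x z i => ?_⟩
  have h1 : Nat.card {j : Fin m // c (x * d j * z) = i} ≤ 1 := by
    rw [Finite.card_le_one_iff_subsingleton]
    refine ⟨fun a b => Subtype.ext (hd x z a.1 b.1 ?_)⟩
    rw [a.2, b.2]
  have h2 : (Nat.card {j : Fin m // c (x * d j * z) = i} : ℝ) ≤ 1 := by exact_mod_cast h1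
  refine h2.trans ?_
  rw [div_lt_iff₀ hε] at hm
  linarith

lemma spread_of_largeFiniteIndex {G : Type u} [Group G] (h : HasLargeFiniteIndexSubgroups G) :
    Spread G := by
  apply spread_of_injOn
  intro m
  obtain ⟨K, hK, hmK⟩ := h m
  have hfin : Finite (G ⧸ K.normalCore) := inferInstance
  have hcard : m ≤ Nat.card (G ⧸ K.normalCore) := by
    have h1 : K.normalCore.index ≠ 0 := Subgroup.FiniteIndex.index_ne_zero
    have h2 : K.index ≤ K.normalCore.index :=
      Nat.le_of_dvd (Nat.pos_of_ne_zero h1) (Subgroup.index_dvd_of_le K.normalCore_le)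
    exact hmK.trans h2
  let e : (G ⧸ K.normalCore) ≃ Fin (Nat.card (G ⧸ K.normalCore)) := Finite.equivFin _
  refine ⟨Nat.card (G ⧸ K.normalCore), fun g => e (g : G ⧸ K.normalCore),
    fun j => (e.symm (Fin.castLE hcard j)).out, ?_⟩
  intro x z i j hij
  have h1 := e.injective hij
  rw [QuotientGroup.mk_mul, QuotientGroup.mk_mul, QuotientGroup.mk_mul, QuotientGroup.mk_mul,
    QuotientGroup.out_eq', QuotientGroup.out_eq'] at h1
  have h2 := mul_left_cancel (mul_right_cancel h1)
  exact Fin.castLE_injective hcard (e.symm.injective h2)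

lemma spread_of_compactImage {G : Type u} [Group G] (h : HasInfiniteCompactImage G) :
    Spread G := by
  classical
  obtain ⟨ρ, hsymm, htri, hleft, hright, htb, hd⟩ := h
  apply spread_of_injOn
  intro m
  obtain ⟨d, hdpos⟩ := hd m
  -- a lower bound for the distances
  have hs : ∃ s : ℝ, 0 < s ∧ ∀ i j, i ≠ j → 2 * s ≤ ρ (d i) (d j) := by
    rcases (Finset.univ.filter fun p : Fin m × Fin m => p.1 ≠ p.2).eq_empty_or_nonempty with h | h
    · refine ⟨1, one_pos, fun i j hij => ?_⟩
      have : (i, j) ∈ (Finset.univ.filter fun p : Fin m × Fin m => p.1 ≠ p.2) := by simp [hij]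
      rw [h] at this
      simp at this
    · obtain ⟨p, hp, hmin⟩ := Finset.exists_min_image _ (fun p => ρ (d p.1) (d p.2)) h
      simp only [Finset.mem_filter, Finset.mem_univ, true_and] at hp hmin
      refine ⟨ρ (d p.1) (d p.2) / 2, half_pos (hdpos _ _ hp), fun i j hij => ?_⟩
      have := hmin (i, j) hij
      simp only at this
      linarith
  obtain ⟨s, hs0, hs⟩ := hs
  obtain ⟨S, hS⟩ := htb s hs0
  choose f hfS hf using hS
  have hfin : Finite S := inferInstance
  let e : S ≃ Fin (Nat.card S) := Finite.equivFin _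
  refine ⟨Nat.card S, fun g => e ⟨f g, hfS g⟩, d, fun x z i j hij => ?_⟩
  have h1 : f (x * d i * z) = f (x * d j * z) := congrArg Subtype.val (e.injective hij)
  by_contra hne
  have h2 := hs i j hne
  have h3 : ρ (d i) (d j) = ρ (x * d i * z) (x * d j * z) := by
    rw [hright, hleft]
  have h4 := htri (x * d i * z) (f (x * d i * z)) (x * d j * z)
  have h5 := hf (x * d i * z)
  have h6 := hf (x * d j * z)
  rw [hsymm, ← h1] at h6
  rw [← h3] at h4
  linarith

lemma spread_of_quasimorphism {G : Type u} [Group G] (h : HasUnboundedQuasimorphism G) :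
    Spread G := by
  obtain ⟨φ, D, hφ, hunb⟩ := h
  have hD : 0 ≤ D := (abs_nonneg _).trans (hφ 1 1)
  have hsep : ∀ m : ℕ, ∃ d : Fin m → G, ∀ i j, i ≠ j → 4 * D + 1 ≤ |φ (d i) - φ (d j)| := by
    intro m
    induction m with
    | zero => exact ⟨Fin.elim0, fun i => i.elim0⟩
    | succ m ih =>
      obtain ⟨d, hd⟩ := ih
      obtain ⟨g, hg⟩ := hunb (∑ i, |φ (d i)| + 4 * D + 1)
      have hbd : ∀ i, |φ (d i)| ≤ ∑ i, |φ (d i)| := fun i =>
        Finset.single_le_sum (f := fun i => |φ (d i)|) (fun i _ => abs_nonneg _)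
          (Finset.mem_univ i)
      refine ⟨Fin.cons g d, ?_⟩
      have key : ∀ i, 4 * D + 1 ≤ |φ g - φ (d i)| := by
        intro i
        have h1 := abs_sub_abs_le_abs_sub (φ g) (φ (d i))
        have h2 := hbd i
        linarith
      intro i j
      refine Fin.cases ?_ (fun i => ?_) i <;> refine Fin.cases ?_ (fun j => ?_) j
      · intro h; exact absurd rfl h
      · intro _
        simpa using key j
      · intro _
        simp only [Fin.cons_succ, Fin.cons_zero]
        rw [abs_sub_comm]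
        exact key i
      · intro hij
        simp only [Fin.cons_succ]
        exact hd i j (fun h => hij (congrArg Fin.succ h))
  apply spread_of_injOn
  intro m
  obtain ⟨d, hd⟩ := hsep m
  set R : ℝ := ∑ i, |φ (d i)| with hR
  have hbd : ∀ i, |φ (d i)| ≤ R := fun i =>
    Finset.single_le_sum (f := fun i => |φ (d i)|) (fun i _ => abs_nonneg _)
      (Finset.mem_univ i)
  have hR0 : 0 ≤ R := Finset.sum_nonneg fun i _ => abs_nonneg _
  obtain ⟨M, hM⟩ := exists_nat_gt (2 * R + 4 * D + 2)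
  have hMpos : 0 < M := by
    have : (0 : ℝ) < M := by linarith
    exact_mod_cast this
  have hMint : (0 : ℤ) < M := by exact_mod_cast hMpos
  refine ⟨M, fun g => ⟨(⌊φ g⌋ % (M : ℤ)).toNat, ?_⟩, d, ?_⟩
  · have h1 := Int.emod_lt_of_pos ⌊φ g⌋ hMint
    have h2 := Int.emod_nonneg ⌊φ g⌋ hMint.ne'
    omega
  · intro x z i j hij
    by_contra hne
    have h0 : (⌊φ (x * d i * z)⌋ % (M : ℤ)).toNat = (⌊φ (x * d j * z)⌋ % (M : ℤ)).toNat :=
      congrArg Fin.val hij
    have h1 : ⌊φ (x * d i * z)⌋ % (M : ℤ) = ⌊φ (x * d j * z)⌋ % (M : ℤ) := by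
      have h2 := Int.emod_nonneg ⌊φ (x * d i * z)⌋ hMint.ne'
      have h3 := Int.emod_nonneg ⌊φ (x * d j * z)⌋ hMint.ne'
      omega
    obtain ⟨k, hk⟩ : (M : ℤ) ∣ ⌊φ (x * d j * z)⌋ - ⌊φ (x * d i * z)⌋ :=
      Int.ModEq.dvd (show ⌊φ (x * d i * z)⌋ ≡ ⌊φ (x * d j * z)⌋ [ZMOD M] from h1)
    -- the difference of the values
    have hA := abs_le.1 (hφ (x * d i) z)
    have hA' := abs_le.1 (hφ x (d i))
    have hB := abs_le.1 (hφ (x * d j) z)
    have hB' := abs_le.1 (hφ x (d j))
    have hdi := abs_le.1 (hbd i)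
    have hdj := abs_le.1 (hbd j)
    have hkR : (⌊φ (x * d j * z)⌋ : ℝ) - ⌊φ (x * d i * z)⌋ = M * k := by exact_mod_cast hk
    have f1 := Int.floor_le (φ (x * d i * z))
    have f2 := Int.lt_floor_add_one (φ (x * d i * z))
    have f3 := Int.floor_le (φ (x * d j * z))
    have f4 := Int.lt_floor_add_one (φ (x * d j * z))
    have hsep := hd i j hne
    rcases lt_trichotomy k 0 with hk0 | hk0 | hk0
    · have : (k : ℝ) ≤ -1 := by exact_mod_cast (by omega : k ≤ -1)
      have hMR : (0 : ℝ) < M := by exact_mod_cast hMpos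
      nlinarith
    · rw [hk0] at hkR
      simp only [Int.cast_zero, mul_zero] at hkR
      rcases le_abs.1 hsep with h | h <;> linarith
    · have : (1 : ℝ) ≤ k := by exact_mod_cast (by omega : (1 : ℤ) ≤ k)
      have hMR : (0 : ℝ) < M := by exact_mod_cast hMpos
      nlinarith


end Pool.Agent.SyndeticSub
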