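import Mathlib

/-!
# Left-invariant syndetic submeasures: definitions
-/

namespace Pool.Agent.SyndeticSub

universe u

/-- The property asked for in Q1, for the group `G`. -/
def HasSyndeticSubmeasure (G : Type u) [Group G] : Prop :=
  ∃ μ : Set G → ℝ,
      (∀ A : Set G, 0 ≤ μ A ∧ μ A ≤ 1) ∧
      μ ∅ = 0 ∧ μ Set.univ = 1 ∧
      (∀ A B : Set G, A ⊆ B → μ A ≤ μ B) ∧
      (∀ A B : Set G, μ (A ∪ B) ≤ μ A + μ B) ∧
      (∀ (x : G) (A : Set G), μ ((fun y => x * y) '' A) = μ A) ∧
      (∀ A : Set G, μ A < 1 → ∀ ε : ℝ, 1 / (Nat.card G : ℝ) < ε →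
        ∃ B ⊆ Aᶜ, μ B < ε ∧
          ∃ F : Finset G, ∀ g : G, ∃ f ∈ F, ∃ b ∈ B, g = f * b)

/-- `G` is amenable: there is a left-invariant finitely additive probability measure on all
subsets of `G`. -/
def IsAmenable (G : Type u) [Group G] : Prop :=
  ∃ m : Set G → ℝ, (∀ A, 0 ≤ m A) ∧ m Set.univ = 1 ∧
    (∀ A B, Disjoint A B → m (A ∪ B) = m A + m B) ∧
    ∀ (g : G) (A : Set G), m ((fun x => g * x) '' A) = m A

/-- For every `ε > 0` there are a finite colouring of `G` and a finite sequence `d` such that in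
every two-sided translate of the sequence each colour is used at most an `ε`-fraction of the
times (so the colour classes have Solecki density at most `ε`). -/
def Spread (G : Type u) [Group G] : Prop :=
  ∀ ε : ℝ, 0 < ε → ∃ (r : ℕ) (c : G → Fin r) (n : ℕ) (d : Fin n → G), 0 < n ∧
    ∀ (x z : G) (i : Fin r), (Nat.card {j : Fin n // c (x * d j * z) = i} : ℝ) ≤ ε * n

/-- `G` has an unbounded quasimorphism. -/
def HasUnboundedQuasimorphism (G : Type u) [Group G] : Prop :=
  ∃ (φ : G → ℝ) (D : ℝ), (∀ x y : G, |φ (x * y) - φ x - φ y| ≤ D) ∧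
    ∀ R : ℝ, ∃ g : G, R < |φ g|

/-- `G` carries a totally bounded bi-invariant pseudometric with arbitrarily many points at
pairwise positive distance (equivalently: a homomorphism with infinite image into a compact
metrizable group). -/
def HasInfiniteCompactImage (G : Type u) [Group G] : Prop :=
  ∃ ρ : G → G → ℝ, (∀ x y, ρ x y = ρ y x) ∧ (∀ x y z, ρ x z ≤ ρ x y + ρ y z) ∧
    (∀ a x y, ρ (a * x) (a * y) = ρ x y) ∧ (∀ a x y, ρ (x * a) (y * a) = ρ x y) ∧
    (∀ s : ℝ, 0 < s → ∃ S : Finset G, ∀ x, ∃ y ∈ S, ρ x y < s) ∧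
    ∀ n : ℕ, ∃ d : Fin n → G, ∀ i j, i ≠ j → 0 < ρ (d i) (d j)

/-- `G` has subgroups of arbitrarily large finite index. -/
def HasLargeFiniteIndexSubgroups (G : Type u) [Group G] : Prop :=
  ∀ n : ℕ, ∃ K : Subgroup G, K.FiniteIndex ∧ n ≤ K.index

/-- `G` has an amenable subgroup `H` such that for every `k` there is a finite set meeting every
conjugate of `H` in at least `k` elements (for example: an infinite amenable normal subgroup). -/
def HasUniformlyInfiniteAmenable (G : Type u) [Group G] : Prop :=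
  ∃ H : Subgroup G, IsAmenable H ∧ ∀ k : ℕ, ∃ D : Finset G, ∀ g : G, ∃ D' ⊆ D, D'.card = k ∧
    ∀ d ∈ D', g⁻¹ * d * g ∈ H

/-- `B` is (left) syndetic: finitely many left translates of `B` cover `G`. -/
def Syn {G : Type u} [Group G] (B : Set G) : Prop :=
  ∃ F : Finset G, ∀ g : G, ∃ f ∈ F, ∃ b ∈ B, g = f * b

/-- There are syndetic sets `B 0, B 1, …` such that every finite union of left translates
`g_i B_{n_i}` with `∑ 1 / (n_i + 1) < 1` has a syndetic complement. -/
def HasThinSequence (G : Type u) [Group G] : Prop :=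
  ∃ B : ℕ → Set G, (∀ n, Syn (B n)) ∧
    ∀ (ι : Type) [Fintype ι] (n : ι → ℕ) (g : ι → G), ∑ i, (1 : ℝ) / ((n i : ℝ) + 1) < 1 →
      Syn {x | ∀ i, g i * x ∉ B (n i)}

/-- A sequence of sets `U j` such that finite intersections of the `U j` are syndetic and finite
intersections of arbitrary left translates of their complements (one translate for each `j`) are
syndetic. -/
def HasBoxSequence (G : Type u) [Group G] : Prop :=
  ∃ U : ℕ → Set G, (∀ s : Finset ℕ, Syn {x | ∀ j ∈ s, x ∈ U j}) ∧
    ∀ (s : Finset ℕ) (γ : ℕ → G), Syn {x | ∀ j ∈ s, γ j * x ∉ U j}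

/-- `G` has an infinite sequence of proper normal subgroups satisfying the Chinese remainder
theorem. -/
def HasIndependentQuotients (G : Type u) [Group G] : Prop :=
  ∃ K : ℕ → Subgroup G, (∀ j, (K j).Normal) ∧ (∀ j, K j ≠ ⊤) ∧
    ∀ (s : Finset ℕ) (y : ℕ → G), ∃ g : G, ∀ j ∈ s, (y j)⁻¹ * g ∈ K j

/-- `G` acts on an infinite set such that every finite subset is contained in a finite subset `E`
all of whose permutations are induced by elements of `G` (for example: any highly transitive
action on an infinite set). -/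
def HasSymmetricAction (G : Type u) [Group G] : Prop :=
  ∃ (Ω : Type u) (_ : MulAction G Ω), Infinite Ω ∧
    ∀ S : Finset Ω, ∃ E : Finset Ω, S ⊆ E ∧
      ∀ σ : Equiv.Perm E, ∃ g : G, ∀ e : E, g • (e : Ω) = σ e

end Pool.Agent.SyndeticSub
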